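import Mathlib
import Pool.Agent.C14S.Dist

set_option autoImplicit false

namespace Pool.Agent.Hhelper43.Cube.C14E

open Pool.Agent.Hhelper43.Cube.C14S

variable {n : ℕ}

/-- A route from `a` to `b` with `k` colour changes at vertices of the set `T`; colour changes at
other vertices are free. -/
inductive Rt (χ : Sym2 (V n) → Bool) (T : V n → Bool) : ℕ → V n × Bool → V n × Bool → Prop
  | z (a : V n × Bool) : Rt χ T 0 a a
  | e {k : ℕ} {u v : V n} {c : Bool} {b : V n × Bool} : E χ c u v → Rt χ T k (v, c) b →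
      Rt χ T k (u, c) b
  | f {k : ℕ} {u : V n} {c : Bool} {b : V n × Bool} : T u = false → Rt χ T k (u, !c) b →
      Rt χ T k (u, c) b
  | s {k : ℕ} {u : V n} {c : Bool} {b : V n × Bool} : T u = true → Rt χ T k (u, !c) b →
      Rt χ T (k + 1) (u, c) b

variable {χ : Sym2 (V n) → Bool} {T : V n → Bool}

lemma Rt_trans {k l : ℕ} {a b d : V n × Bool} (h : Rt χ T k a b) (h' : Rt χ T l b d) :
    Rt χ T (k + l) a d := by
  induction h with
  | z a => rw [Nat.zero_add]; exact h'
  | e he _ ih => exact Rt.e he (ih h')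
  | f hf _ ih => exact Rt.f hf (ih h')
  | s hs _ ih =>
    rename_i k' u c b' _
    have := Rt.s hs (ih h')
    have e : k' + 1 + l = k' + l + 1 := by omega
    rw [e]; exact this

lemma Rt_symm {k : ℕ} {a b : V n × Bool} (h : Rt χ T k a b) : Rt χ T k b a := by
  induction h with
  | z a => exact Rt.z a
  | e he _ ih => exact Rt_trans ih (Rt.e (E_symm he) (Rt.z _))
  | f hf _ ih =>
    rename_i k' u c b' _
    have h1 : Rt χ T 0 (u, !(!c)) (u, c) := by rw [Bool.not_not]; exact Rt.z _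
    have h2 : Rt χ T 0 (u, !c) (u, c) := Rt.f hf h1
    exact Rt_trans ih h2
  | s hs _ ih =>
    rename_i k' u c b' _
    refine Rt_trans ih ?_
    have : Rt χ T 0 (u, !(!c)) (u, c) := by rw [Bool.not_not]; exact Rt.z _
    exact Rt.s hs this

lemma Rt_Cn {c : Bool} {x y : V n} (h : Cn χ c x y) : Rt χ T 0 (x, c) (y, c) := by
  induction h using Relation.ReflTransGen.head_induction_on with
  | refl => exact Rt.z _
  | head hab _ ih => exact Rt.e hab ih

lemma Rt_succ {l : ℕ} {a b : V n × Bool} (h : Rt χ T l a b) (k : ℕ) (hl : l = k + 1) :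
    ∃ y d, T y = true ∧ Rt χ T 0 a (y, d) ∧ Rt χ T k (y, !d) b := by
  induction h with
  | z a => omega
  | e he _ ih =>
    obtain ⟨y, d, h1, h2, h3⟩ := ih hl
    exact ⟨y, d, h1, Rt.e he h2, h3⟩
  | f hf _ ih =>
    obtain ⟨y, d, h1, h2, h3⟩ := ih hl
    exact ⟨y, d, h1, Rt.f hf h2, h3⟩
  | s hs h ih =>
    rename_i k' u c b'
    have : k' = k := by omega
    subst this
    exact ⟨u, c, hs, Rt.z _, h⟩

lemma Rt_of_St {k : ℕ} {a b : V n × Bool} (h : St χ k a b) : ∃ l, Rt χ T l a b := by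
  induction h with
  | z a => exact ⟨0, Rt.z a⟩
  | e he _ ih =>
    obtain ⟨l, hl⟩ := ih
    exact ⟨l, Rt.e he hl⟩
  | s _ ih =>
    rename_i k' u c b' _
    obtain ⟨l, hl⟩ := ih
    cases hu : T u
    · exact ⟨l, Rt.f hu hl⟩
    · exact ⟨l + 1, Rt.s hu hl⟩

lemma Rt_exists (χ : Sym2 (V n) → Bool) (T : V n → Bool) (a b : V n × Bool) :
    ∃ k, Rt χ T k a b := by
  obtain ⟨k, hk⟩ := St_exists χ a b
  exact Rt_of_St hk

/-- The least number of colour changes at vertices of `T`. -/
noncomputable def DT (χ : Sym2 (V n) → Bool) (T : V n → Bool) (a b : V n × Bool) : ℕ :=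
  sInf {k | Rt χ T k a b}

lemma DT_rt (χ : Sym2 (V n) → Bool) (T : V n → Bool) (a b : V n × Bool) :
    Rt χ T (DT χ T a b) a b :=
  Nat.sInf_mem (s := {k | Rt χ T k a b}) (Rt_exists χ T a b)

lemma DT_le {k : ℕ} {a b : V n × Bool} (h : Rt χ T k a b) : DT χ T a b ≤ k := Nat.sInf_le h

lemma DT_symm (a b : V n × Bool) : DT χ T a b = DT χ T b a :=
  le_antisymm (DT_le (Rt_symm (DT_rt χ T b a))) (DT_le (Rt_symm (DT_rt χ T a b)))

lemma DT_tri (a b d : V n × Bool) : DT χ T a d ≤ DT χ T a b + DT χ T b d :=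
  DT_le (Rt_trans (DT_rt χ T a b) (DT_rt χ T b d))

lemma DT_zero {a b : V n × Bool} (h : Rt χ T 0 a b) : DT χ T a b = 0 :=
  Nat.le_zero.mp (DT_le h)

lemma DT_rt0 {a b : V n × Bool} (h : DT χ T a b = 0) : Rt χ T 0 a b := by
  have := DT_rt χ T a b
  rwa [h] at this

lemma DT_congr {a a' : V n × Bool} (h : Rt χ T 0 a a') (b : V n × Bool) :
    DT χ T a b = DT χ T a' b := by
  have h1 := DT_tri (χ := χ) (T := T) a a' b
  have h2 := DT_tri (χ := χ) (T := T) a' a b
  rw [DT_zero h] at h1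
  rw [DT_zero (Rt_symm h)] at h2
  omega

lemma DT_congr' {b b' : V n × Bool} (h : Rt χ T 0 b b') (a : V n × Bool) :
    DT χ T a b = DT χ T a b' := by
  rw [DT_symm, DT_congr h, DT_symm]

lemma Rt_free {x : V n} (hx : T x = false) (c d : Bool) : Rt χ T 0 (x, c) (x, d) := by
  by_cases h : c = d
  · subst h; exact Rt.z _
  · have : d = !c := by cases c <;> cases d <;> simp_all
    subst this
    exact Rt.f hx (Rt.z _)

lemma DT_nb (x : V n) (c : Bool) (b : V n × Bool) : DT χ T (x, c) b ≤ DT χ T (x, !c) b + 1 := by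
  cases hx : T x
  · have := DT_congr (χ := χ) (Rt_free hx c (!c)) b
    omega
  · exact DT_le (Rt.s hx (DT_rt χ T _ _))

lemma DT_nb' (x : V n) (c : Bool) (b : V n × Bool) : DT χ T (x, !c) b ≤ DT χ T (x, c) b + 1 := by
  have := DT_nb (χ := χ) (T := T) x (!c) b
  rwa [Bool.not_not] at this

/-! ### Potentials and parity -/

/-- `T` alternates along the edges of the cube. -/
def Alt (T : V n → Bool) : Prop := ∀ u i, T (flip u i) = !T u

/-- `s` is a potential of the colouring. -/
def Pot (χ : Sym2 (V n) → Bool) (s : V n → Bool) : Prop :=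
  ∀ u i, s (flip u i) = xor (s u) (ecol χ u i)

/-- The side of a state. -/
def sg (s T : V n → Bool) (a : V n × Bool) : Bool := if T a.1 then xor (s a.1) a.2 else s a.1

lemma E_flip {c : Bool} {u v : V n} (h : E χ c u v) : ∃ i, v = flip u i ∧ ecol χ u i = c := by
  obtain ⟨i, rfl⟩ := adj_iff _ _ h.1
  exact ⟨i, rfl, h.2⟩

lemma sg_e {s : V n → Bool} (hA : Alt T) (hs : Pot χ s) {c : Bool} {u v : V n}
    (h : E χ c u v) : sg s T (u, c) = sg s T (v, c) := by
  obtain ⟨i, rfl, hc⟩ := E_flip h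
  unfold sg
  simp only [hA u i, hs u i, hc]
  cases T u <;> cases s u <;> cases c <;> rfl

lemma Rt_par {s : V n → Bool} (hA : Alt T) (hs : Pot χ s) {k : ℕ} {a b : V n × Bool}
    (h : Rt χ T k a b) : sg s T a = sg s T b ↔ Even k := by
  induction h with
  | z a => simp
  | e he _ ih =>
    rw [sg_e hA hs he]; exact ih
  | f hf _ ih =>
    rename_i k' u c b' _
    have : sg s T (u, c) = sg s T (u, !c) := by
      unfold sg
      simp [hf]
    rw [this]; exact ih
  | s hu _ ih =>
    rename_i k' u c b' _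
    rw [Nat.even_add_one, ← ih]
    have : sg s T (u, c) = !(sg s T (u, !c)) := by
      unfold sg
      simp [hu]
    rw [this]
    cases sg s T (u, !c) <;> cases sg s T b' <;> simp

lemma DT_par {s : V n → Bool} (hA : Alt T) (hs : Pot χ s) (a b : V n × Bool) :
    sg s T a = sg s T b ↔ Even (DT χ T a b) := Rt_par hA hs (DT_rt χ T a b)

lemma DT_ne {s : V n → Bool} (hA : Alt T) (hs : Pot χ s) {x : V n} (hx : T x = true) (c : Bool)
    (b : V n × Bool) : DT χ T (x, !c) b + 1 = DT χ T (x, c) b ∨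
      DT χ T (x, !c) b = DT χ T (x, c) b + 1 := by
  have h1 := DT_nb (χ := χ) (T := T) x c b
  have h2 := DT_nb' (χ := χ) (T := T) x c b
  have p1 := DT_par hA hs (x, c) b
  have p2 := DT_par hA hs (x, !c) b
  have : sg s T (x, c) = !(sg s T (x, !c)) := by
    unfold sg
    simp [hx]
  rw [this] at p1
  rw [Nat.even_iff] at p1 p2
  have h3 : ¬ (DT χ T (x, !c) b = DT χ T (x, c) b) := by
    intro h
    rw [h] at p2
    have h4 := p1.trans p2.symm
    revert h4
    generalize sg s T (x, !c) = X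
    generalize sg s T b = Y
    revert X Y
    decide
  omega

end Pool.Agent.Hhelper43.Cube.C14E
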