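import Mathlib
import Pool.Agent.C14S.Coc
import Pool.Agent.C14E.Rt

set_option autoImplicit false

namespace Pool.Agent.Hhelper43.Cube.C14E

open Pool.Agent.Hhelper43.Cube.C14S

variable {n : ℕ} {χ : Sym2 (V n) → Bool} {T s : V n → Bool}

lemma not_Rt0 (hA : Alt T) (hs : Pot χ s) {x : V n} (hx : T x = true) (c : Bool) :
    ¬ Rt χ T 0 (x, c) (x, !c) := by
  intro h
  have h1 := DT_ne hA hs hx c (x, !c)
  rw [DT_zero h, DT_zero (Rt.z _)] at h1
  omega

open Classical in
/-- The marked states: costly, on the side of `N`, the other side on the side of `S`. -/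
noncomputable def g (T : V n → Bool) (S N : V n × Bool → Prop) (a : V n × Bool) : Bool :=
  decide (T a.1 = true ∧ N a ∧ S (a.1, !a.2))

open Classical in
lemma g_true_iff {S N : V n × Bool → Prop} {a : V n × Bool} :
    g T S N a = true ↔ (T a.1 = true ∧ N a ∧ S (a.1, !a.2)) := by
  unfold g
  exact decide_eq_true_iff

/-- The cochain of a marked family. -/
noncomputable def hh (χ : Sym2 (V n) → Bool) (T : V n → Bool) (S N : V n × Bool → Prop)
    (u : V n) (i : Fin n) : Bool :=
  if T u then g T S N (u, ecol χ u i) else g T S N (flip u i, ecol χ u i)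

lemma hh_flip (hA : Alt T) (S N : V n × Bool → Prop) (u : V n) (i : Fin n) :
    hh χ T S N (flip u i) i = hh χ T S N u i := by
  unfold hh
  rw [hA, ecol_flip, flip_flip]
  cases T u <;> simp

lemma g_of_not {S N : V n × Bool → Prop} {a : V n × Bool} (h : T a.1 = false) :
    g T S N a = false := by
  unfold g
  simp [h]

lemma hh_sq1 (hA : Alt T) (hs : Pot χ s) (S N : V n × Bool → Prop)
    (hS : ∀ a b, Rt χ T 0 a b → (S a ↔ S b)) (hN : ∀ a b, Rt χ T 0 a b → (N a ↔ N b))
    (u : V n) (i j : Fin n) (hu : T u = true) :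
    xor (xor (hh χ T S N u i) (hh χ T S N (flip u i) j))
      (xor (hh χ T S N u j) (hh χ T S N (flip u j) i)) = false := by
  have ti : T (flip u i) = false := by rw [hA, hu]; rfl
  have tj : T (flip u j) = false := by rw [hA, hu]; rfl
  have tw : T (flip (flip u i) j) = true := by rw [hA, ti]; rfl
  have e1 : hh χ T S N u i = g T S N (u, ecol χ u i) := by
    unfold hh; rw [hu]; rfl
  have e2 : hh χ T S N u j = g T S N (u, ecol χ u j) := by
    unfold hh; rw [hu]; rfl
  have e3 : hh χ T S N (flip u i) j = g T S N (flip (flip u i) j, ecol χ (flip u i) j) := by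
    unfold hh; rw [ti]; rfl
  have e4 : hh χ T S N (flip u j) i = g T S N (flip (flip u i) j, ecol χ (flip u j) i) := by
    unfold hh; rw [tj, flip_comm u i j]; rfl
  have ev : xor (ecol χ u i) (ecol χ (flip u i) j) = xor (ecol χ u j) (ecol χ (flip u j) i) := by
    have h1 := hs (flip u i) j
    have h2 := hs (flip u j) i
    rw [hs u i] at h1
    rw [hs u j] at h2
    rw [flip_comm u i j, h2] at h1
    revert h1
    generalize ecol χ u i = x1
    generalize ecol χ (flip u i) j = x2
    generalize ecol χ u j = x3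
    generalize ecol χ (flip u j) i = x4
    generalize s u = x5
    revert x1 x2 x3 x4 x5
    decide
  have r1 : Rt χ T 0 (u, ecol χ u i) (flip (flip u i) j, ecol χ (flip u i) j) := by
    refine Rt.e ⟨adj_flip u i, rfl⟩ (Rt_trans (k := 0) (l := 0)
      (Rt_free ti _ (ecol χ (flip u i) j)) (Rt.e ⟨adj_flip _ j, rfl⟩ (Rt.z _)))
  have r2 : Rt χ T 0 (u, ecol χ u j) (flip (flip u i) j, ecol χ (flip u j) i) := by
    have := Rt.e (χ := χ) (T := T) ⟨adj_flip u j, rfl⟩ (Rt_trans (k := 0) (l := 0)
      (Rt_free tj _ (ecol χ (flip u j) i)) (Rt.e ⟨adj_flip _ i, rfl⟩ (Rt.z _)))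
    rw [← flip_comm u i j] at this
    exact this
  rw [e1, e2, e3, e4]
  by_cases hab : ecol χ u i = ecol χ u j
  · have hcd : ecol χ (flip u i) j = ecol χ (flip u j) i := by
      rw [hab] at ev
      revert ev
      generalize ecol χ u j = x1
      generalize ecol χ (flip u i) j = x2
      generalize ecol χ (flip u j) i = x3
      revert x1 x2 x3
      decide
    rw [hab, hcd]
    simp
  · have hb : ecol χ u j = !(ecol χ u i) := by
      revert hab
      generalize ecol χ u j = x1
      generalize ecol χ u i = x2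
      revert x1 x2
      decide
    have hd : ecol χ (flip u j) i = !(ecol χ (flip u i) j) := by
      rw [hb] at ev
      revert ev
      generalize ecol χ u i = x1
      generalize ecol χ (flip u i) j = x2
      generalize ecol χ (flip u j) i = x3
      revert x1 x2 x3
      decide
    rw [hb, hd] at r2 ⊢
    generalize ecol χ u i = al at *
    generalize ecol χ (flip u i) j = ga at *
    have f1 : g T S N (u, al) = g T S N (flip (flip u i) j, ga) := by
      unfold g
      rw [decide_eq_decide]
      simp only [hu, tw, true_and]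
      rw [hN _ _ r1, hS _ _ r2]
    have f2 : g T S N (u, !al) = g T S N (flip (flip u i) j, !ga) := by
      unfold g
      rw [decide_eq_decide]
      simp only [hu, tw, true_and, Bool.not_not]
      rw [hN _ _ r2, hS _ _ r1]
    rw [f1, f2]
    simp

lemma hh_sq (hA : Alt T) (hs : Pot χ s) (S N : V n × Bool → Prop)
    (hS : ∀ a b, Rt χ T 0 a b → (S a ↔ S b)) (hN : ∀ a b, Rt χ T 0 a b → (N a ↔ N b))
    (u : V n) (i j : Fin n) :
    xor (xor (hh χ T S N u i) (hh χ T S N (flip u i) j))
      (xor (hh χ T S N u j) (hh χ T S N (flip u j) i)) = false := by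
  cases hu : T u
  · have hu' : T (flip u i) = true := by rw [hA, hu]; rfl
    have := hh_sq1 hA hs S N hS hN (flip u i) i j hu'
    rw [flip_flip, hh_flip hA, flip_comm u i j, hh_flip hA] at this
    revert this
    generalize hh χ T S N u i = x1
    generalize hh χ T S N (flip u i) j = x2
    generalize hh χ T S N u j = x3
    generalize hh χ T S N (flip u j) i = x4
    revert x1 x2 x3 x4
    decide
  · exact hh_sq1 hA hs S N hS hN u i j hu

/-- The exit from a room towards a given state is unique. -/
theorem uniqT (hA : Alt T) (hs : Pot χ s) {a0 b : V n × Bool} {z w : V n} {c c' : Bool}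
    (hz : T z = true) (hzS : Rt χ T 0 a0 (z, c)) (hwS : Rt χ T 0 a0 (w, c'))
    (h1 : DT χ T (z, !c) b + 1 = DT χ T a0 b) (h2 : DT χ T (w, !c') b + 1 = DT χ T a0 b) :
    Rt χ T 0 (z, !c) (w, !c') := by
  set S : V n × Bool → Prop := fun a => Rt χ T 0 a0 a with hSd
  set N : V n × Bool → Prop := fun a => Rt χ T 0 (z, !c) a with hNd
  have hS : ∀ a b, Rt χ T 0 a b → (S a ↔ S b) := fun a b h =>
    ⟨fun h' => Rt_trans h' h, fun h' => Rt_trans h' (Rt_symm h)⟩
  have hN : ∀ a b, Rt χ T 0 a b → (N a ↔ N b) := fun a b h =>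
    ⟨fun h' => Rt_trans h' h, fun h' => Rt_trans h' (Rt_symm h)⟩
  obtain ⟨P, hP⟩ := coc n (hh χ T S N) (fun u i => hh_flip hA S N u i)
    (fun u i j _ => hh_sq hA hs S N hS hN u i j)
  have q1 : ∀ (d : Bool) (u v : V n), E χ d u v →
      xor (P u) (g T S N (u, d)) = xor (P v) (g T S N (v, d)) := by
    intro d u v he
    obtain ⟨i, rfl, hd⟩ := E_flip he
    rw [hP u i]
    cases hu : T u
    · have e1 : hh χ T S N u i = g T S N (flip u i, d) := by
        unfold hh; rw [hu, hd]; rfl
      have e2 : g T S N (u, d) = false := g_of_not hu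
      rw [e1, e2]
      simp
    · have e1 : hh χ T S N u i = g T S N (u, d) := by
        unfold hh; rw [hu, hd]; rfl
      have e2 : g T S N (flip u i, d) = false := g_of_not (by
        change T (flip u i) = false
        rw [hA, hu]; rfl)
      rw [e1, e2]
      simp
  have q0 : ∀ (k : ℕ) (a b : V n × Bool), Rt χ T k a b → k = 0 →
      xor (P a.1) (g T S N a) = xor (P b.1) (g T S N b) := by
    intro k a b h
    induction h with
    | z a => intro _; rfl
    | e he _ ih => intro hk; exact (q1 _ _ _ he).trans (ih hk)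
    | f hf _ ih =>
      intro hk
      rw [← ih hk, g_of_not (T := T) hf, g_of_not (T := T) hf]
    | s _ _ _ => intro hk; omega
  have q2 : ∀ (k : ℕ) (a b : V n × Bool), Rt χ T k a b → k < DT χ T a0 b →
      xor (P a.1) (g T S N a) = xor (P b.1) (g T S N b) := by
    intro k a b h
    induction h with
    | z a => intro _; rfl
    | e he _ ih => intro hk; exact (q1 _ _ _ he).trans (ih hk)
    | f hf _ ih =>
      intro hk
      rw [← ih hk, g_of_not (T := T) hf, g_of_not (T := T) hf]
    | s hu hr ih =>
      rename_i k u d b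
      intro hk
      rw [← ih (by omega)]
      have e1 : g T S N (u, d) = false := by
        unfold g
        rw [decide_eq_false_iff_not]
        rintro ⟨-, -, h⟩
        have h3 := DT_congr (show Rt χ T 0 a0 (u, !d) from h) b
        have h4 := DT_le hr
        omega
      have e2 : g T S N (u, !d) = false := by
        unfold g
        rw [decide_eq_false_iff_not]
        rintro ⟨-, -, h⟩
        simp only [Bool.not_not] at h
        have h3 := DT_congr (show Rt χ T 0 a0 (u, d) from h) b
        have h4 := DT_le (Rt.s hu hr)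
        omega
      rw [e1, e2]
  have p1 := q0 0 _ _ (Rt_trans (k := 0) (l := 0) (Rt_symm hzS) hwS) rfl
  have p2 := q2 _ _ _ (DT_rt χ T (z, !c) b) (by omega)
  have p3 := q2 _ _ _ (DT_rt χ T (w, !c') b) (by omega)
  have g1 : g T S N (z, !c) = true := by
    rw [g_true_iff]
    refine ⟨hz, Rt.z _, ?_⟩
    simp only [Bool.not_not]
    exact hzS
  have g2 : g T S N (z, c) = false := by
    unfold g
    rw [decide_eq_false_iff_not]
    rintro ⟨-, h, -⟩
    exact not_Rt0 hA hs hz c (Rt_symm h)
  have g3 : g T S N (w, c') = false := by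
    unfold g
    rw [decide_eq_false_iff_not]
    rintro ⟨hw, -, h⟩
    have h3 : Rt χ T 0 (w, c') (w, !c') := Rt_trans (k := 0) (l := 0) (Rt_symm hwS) h
    exact not_Rt0 hA hs hw c' h3
  have g4 : g T S N (w, !c') = true := by
    simp only at p1 p2 p3
    rw [g2, g3] at p1
    rw [← p3, g1] at p2
    revert p1 p2
    generalize P z = x1
    generalize P w = x2
    generalize g T S N (w, !c') = x3
    revert x1 x2 x3
    decide
  exact (g_true_iff.mp g4).2.1

end Pool.Agent.Hhelper43.Cube.C14E
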