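import Mathlib
import Pool.Agent.C14E.Uniq

set_option autoImplicit false

namespace Pool.Agent.Hhelper43.Cube.C14E

open Pool.Agent.Hhelper43.Cube.C14S

variable {n : ℕ} {χ : Sym2 (V n) → Bool} {T s : V n → Bool}

/-- Twice the distance of the midpoints of two vertices in the tree of rooms. -/
noncomputable def FF (χ : Sym2 (V n) → Bool) (T : V n → Bool) (v w : V n) : ℕ :=
  min (DT χ T (v, true) (w, true) + DT χ T (v, false) (w, false))
    (DT χ T (v, true) (w, false) + DT χ T (v, false) (w, true))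

lemma FF_eq (c c' : Bool) (v w : V n) : FF χ T v w =
    min (DT χ T (v, c) (w, c') + DT χ T (v, !c) (w, !c'))
      (DT χ T (v, !c) (w, c') + DT χ T (v, c) (w, !c')) := by
  unfold FF
  cases c <;> cases c' <;> simp only [Bool.not_true, Bool.not_false] <;> omega

lemma FF_self (v : V n) : FF χ T v v = 0 := by
  unfold FF
  rw [DT_zero (Rt.z (v, true)), DT_zero (Rt.z (v, false))]
  simp

lemma DT_nb2 (a : V n × Bool) (x : V n) (c : Bool) :
    DT χ T a (x, !c) ≤ DT χ T a (x, c) + 1 := by
  rw [DT_symm, DT_symm a]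
  exact DT_nb' x c a

lemma DT_nb2' (a : V n × Bool) (x : V n) (c : Bool) :
    DT χ T a (x, c) ≤ DT χ T a (x, !c) + 1 := by
  rw [DT_symm, DT_symm a]
  exact DT_nb x c a

lemma DT_ne2 (hA : Alt T) (hs : Pot χ s) (a : V n × Bool) {x : V n} (hx : T x = true)
    (c : Bool) : DT χ T a (x, !c) + 1 = DT χ T a (x, c) ∨
      DT χ T a (x, !c) = DT χ T a (x, c) + 1 := by
  rw [DT_symm, DT_symm a]
  exact DT_ne hA hs hx c a

/-- The additive form of the midpoint distance. -/
theorem FF_form (hA : Alt T) (hs : Pot χ s) {z z' : V n} {c c' : Bool}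
    (hL : 1 ≤ DT χ T (z, c) (z', c')) :
    FF χ T z z' = DT χ T (z, !c) (z', c') + DT χ T (z, c) (z', !c') := by
  rw [FF_eq c c']
  refine min_eq_right ?_
  cases hz : T z
  · rw [DT_congr (Rt_free hz (!c) c) (z', c'), DT_congr (Rt_free hz (!c) c) (z', !c')]
  cases hz' : T z'
  · rw [DT_congr' (Rt_free hz' (!c') c') (z, c), DT_congr' (Rt_free hz' (!c') c') (z, !c)]
    omega
  have h1 := DT_ne hA hs hz c (z', c')
  have h2 := DT_ne2 hA hs (z, c) hz' c'
  have h3 := DT_ne hA hs hz c (z', !c')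
  have h4 := DT_ne2 hA hs (z, !c) hz' c'
  by_contra hcon
  have e1 : DT χ T (z, !c) (z', c') = DT χ T (z, c) (z', c') + 1 := by omega
  have e2 : DT χ T (z, c) (z', !c') = DT χ T (z, c) (z', c') + 1 := by omega
  have e3 : DT χ T (z, !c) (z', !c') = DT χ T (z, c) (z', c') := by omega
  obtain ⟨y, d, y1, y2, y3⟩ := Rt_succ (DT_rt χ T (z, c) (z', c'))
    (DT χ T (z, c) (z', c') - 1) (by omega)
  have f1 := DT_le y3
  have f2 := DT_nb2 (χ := χ) (T := T) (y, !d) z' c'
  have f3 := DT_nb (χ := χ) (T := T) y d (z', !c')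
  have f4 := DT_congr y2 (z', !c')
  have f5 := uniqT hA hs (a0 := (z, c)) (b := (z', !c')) hz (Rt.z _) y2 (by omega) (by omega)
  have f6 := DT_congr f5 (z', c')
  omega

/-- The four point property. -/
def QP' {k : ℕ} (δ : V k → V k → ℕ) : Prop :=
  ∀ p q p' q' : V k, (Q k).Adj p q → (Q k).Adj p' q' →
    (δ p q' ≤ 1 ∧ δ q p' ≤ 1) ∨
      (δ p q' + δ q p' ≤ δ p p' + δ q q' ∧ δ p q' ≤ δ q p' + 2 ∧ δ q p' ≤ δ p q' + 2)

lemma FF_zero_le {z z' : V n} {c c' : Bool}
    (hL : DT χ T (z, c) (z', c') = 0) :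
    FF χ T z z' ≤ (if T z then 1 else 0) + (if T z' then 1 else 0) := by
  rw [FF_eq c c']
  refine (min_le_right _ _).trans (Nat.add_le_add ?_ ?_)
  · cases hz : T z
    · rw [DT_congr (Rt_free hz (!c) c), hL]
      simp
    · have := DT_nb' (χ := χ) (T := T) z c (z', c')
      simp only [if_true]
      omega
  · cases hz : T z'
    · rw [DT_congr' (Rt_free hz (!c') c'), hL]
      simp
    · have := DT_nb2 (χ := χ) (T := T) (z, c) z' c'
      simp only [if_true]
      omega

lemma FF_one (hA : Alt T) (hs : Pot χ s) {z z' : V n} {c c' : Bool}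
    (hL : DT χ T (z, c) (z', c') = 0) (h : T z = !T z') : 1 ≤ FF χ T z z' := by
  rw [FF_eq c c', hL, Nat.zero_add]
  cases hz : T z
  · have hz' : T z' = true := by rw [hz] at h; revert h; cases T z' <;> simp
    have h2 := DT_ne2 hA hs (z, c) hz' c'
    have e1 := DT_congr (χ := χ) (Rt_free hz (!c) c) (z', !c')
    refine le_min ?_ ?_ <;> omega
  · have hz' : T z' = false := by rw [hz] at h; revert h; cases T z' <;> simp
    have h2 := DT_ne hA hs hz c (z', c')
    have e1 := DT_congr' (χ := χ) (Rt_free hz' (!c') c') (z, !c)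
    refine le_min ?_ ?_ <;> omega

theorem FF_quad (hA : Alt T) (hs : Pot χ s) : QP' (FF χ T) := by
  intro p q p' q' h h'
  have hc : Cn χ (χ s(p, q)) p q := Cn_of_E ⟨h, rfl⟩
  have hc' : Cn χ (χ s(p', q')) p' q' := Cn_of_E ⟨h', rfl⟩
  have hT : T q = !T p := by
    obtain ⟨i, rfl⟩ := adj_iff _ _ h
    exact hA p i
  have hT' : T q' = !T p' := by
    obtain ⟨i, rfl⟩ := adj_iff _ _ h'
    exact hA p' i
  generalize χ s(p, q) = c at *
  generalize χ s(p', q') = c' at *
  have r : Rt χ T 0 (p, c) (q, c) := Rt_Cn hc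
  have r' : Rt χ T 0 (p', c') (q', c') := Rt_Cn hc'
  obtain ⟨L, hL⟩ : ∃ L, DT χ T (p, c) (p', c') = L := ⟨_, rfl⟩
  have hL1 : DT χ T (p, c) (q', c') = L := by rw [← DT_congr' r', hL]
  have hL2 : DT χ T (q, c) (p', c') = L := by rw [← DT_congr r, hL]
  have hL3 : DT χ T (q, c) (q', c') = L := by rw [← DT_congr' r', hL2]
  rcases Nat.eq_zero_or_pos L with h0 | h1
  · subst h0
    have a1 := FF_zero_le hL
    have a2 := FF_zero_le hL1
    have a3 := FF_zero_le hL2
    have a4 := FF_zero_le hL3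
    have b1 := FF_one hA hs hL
    have b2 := FF_one hA hs hL1
    have b3 := FF_one hA hs hL2
    have b4 := FF_one hA hs hL3
    rw [hT, hT'] at *
    generalize FF χ T p p' = d1 at *
    generalize FF χ T p q' = d2 at *
    generalize FF χ T q p' = d3 at *
    generalize FF χ T q q' = d4 at *
    cases hp : T p <;> cases hp' : T p' <;> simp only [hp, hp', Bool.not_true, Bool.not_false,
      if_true, Bool.false_eq_true, if_false, forall_const, Bool.true_eq_false, false_imp_iff]
      at a1 a2 a3 a4 b1 b2 b3 b4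
    · left; omega
    · right; omega
    · right; omega
    · left; omega
  · right
    have e1 := FF_form hA hs (z := p) (z' := p') (c := c) (c' := c') (by omega)
    have e2 := FF_form hA hs (z := p) (z' := q') (c := c) (c' := c') (by omega)
    have e3 := FF_form hA hs (z := q) (z' := p') (c := c) (c' := c') (by omega)
    have e4 := FF_form hA hs (z := q) (z' := q') (c := c) (c' := c') (by omega)
    have u1 : DT χ T (p, !c) (q', c') = DT χ T (p, !c) (p', c') := (DT_congr' r' _).symm
    have u2 : DT χ T (q, !c) (q', c') = DT χ T (q, !c) (p', c') := (DT_congr' r' _).symm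
    have u3 : DT χ T (q, c) (p', !c') = DT χ T (p, c) (p', !c') := (DT_congr r _).symm
    have u4 : DT χ T (q, c) (q', !c') = DT χ T (p, c) (q', !c') := (DT_congr r _).symm
    have v1 := DT_nb (χ := χ) (T := T) p c (p', c')
    have v2 := DT_nb' (χ := χ) (T := T) p c (p', c')
    have v3 := DT_nb (χ := χ) (T := T) q c (p', c')
    have v4 := DT_nb' (χ := χ) (T := T) q c (p', c')
    have w1 := DT_nb2 (χ := χ) (T := T) (p, c) p' c'
    have w2 := DT_nb2' (χ := χ) (T := T) (p, c) p' c'
    have w3 := DT_nb2 (χ := χ) (T := T) (p, c) q' c'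
    have w4 := DT_nb2' (χ := χ) (T := T) (p, c) q' c'
    have k1 : DT χ T (p, !c) (p', c') = L ∨ DT χ T (q, !c) (p', c') = L := by
      cases hp : T p
      · left
        rw [DT_congr (Rt_free hp (!c) c), hL]
      · right
        have hq : T q = false := by rw [hT, hp]; rfl
        rw [DT_congr (Rt_free hq (!c) c), hL2]
    have k2 : DT χ T (p, c) (p', !c') = L ∨ DT χ T (p, c) (q', !c') = L := by
      cases hp : T p'
      · left
        rw [DT_congr' (Rt_free hp (!c') c'), hL]
      · right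
        have hq : T q' = false := by rw [hT', hp]; rfl
        rw [DT_congr' (Rt_free hq (!c') c'), hL1]
    omega

/-! ### The ends of a shortest route between two vertices -/

lemma ends_tt (hA : Alt T) (hs : Pot χ s) {v w : V n} (hv : T v = true) (hw : T w = true) :
    ∃ c c', 2 * DT χ T (v, c) (w, c') + 2 ≤ max (FF χ T v w) 2 := by
  obtain ⟨c, c', hmin⟩ : ∃ c c', ∀ d d', DT χ T (v, c) (w, c') ≤ DT χ T (v, d) (w, d') := by
    obtain ⟨x, hx⟩ := Finite.exists_min (fun x : Bool × Bool => DT χ T (v, x.1) (w, x.2))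
    exact ⟨x.1, x.2, fun d d' => hx (d, d')⟩
  refine ⟨c, c', ?_⟩
  rcases Nat.eq_zero_or_pos (DT χ T (v, c) (w, c')) with h0 | h1
  · rw [h0]; omega
  · have h := FF_form hA hs h1
    have a1 := DT_ne hA hs hv c (w, c')
    have a2 := DT_ne2 hA hs (v, c) hw c'
    have b1 := hmin (!c) c'
    have b2 := hmin c (!c')
    omega

lemma ends_ff {v w : V n} (hv : T v = false) (hw : T w = false) (c c' : Bool) :
    FF χ T v w = 2 * DT χ T (v, c) (w, c') := by
  rw [FF_eq c c', DT_congr (Rt_free hv (!c) c), DT_congr (Rt_free hv (!c) c),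
    DT_congr' (Rt_free hw (!c') c')]
  omega

lemma ends_tf (hA : Alt T) (hs : Pot χ s) {v w : V n} (hv : T v = true) (hw : T w = false) :
    ∃ c, ∀ c', 2 * DT χ T (v, c) (w, c') + 1 ≤ FF χ T v w := by
  have h := DT_ne hA hs hv true (w, true)
  have hF := FF_eq (χ := χ) (T := T) true true v w
  rw [DT_congr' (Rt_free hw (!true) true) (v, true),
    DT_congr' (Rt_free hw (!true) true) (v, !true)] at hF
  rcases h with h | h
  · refine ⟨!true, fun c' => ?_⟩
    rw [DT_congr' (Rt_free hw c' true)]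
    omega
  · refine ⟨true, fun c' => ?_⟩
    rw [DT_congr' (Rt_free hw c' true)]
    omega

lemma ends_ft (hA : Alt T) (hs : Pot χ s) {v w : V n} (hv : T v = false) (hw : T w = true) :
    ∃ c', ∀ c, 2 * DT χ T (v, c) (w, c') + 1 ≤ FF χ T v w := by
  have h := DT_ne2 hA hs (v, true) hw true
  have hF := FF_eq (χ := χ) (T := T) true true v w
  rw [DT_congr (Rt_free hv (!true) true) (w, true),
    DT_congr (Rt_free hv (!true) true) (w, !true)] at hF
  rcases h with h | h
  · refine ⟨!true, fun c' => ?_⟩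
    rw [DT_congr (Rt_free hv c' true)]
    omega
  · refine ⟨true, fun c' => ?_⟩
    rw [DT_congr (Rt_free hv c' true)]
    omega

end Pool.Agent.Hhelper43.Cube.C14E
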