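import Mathlib
import Pool.Agent.C14S.WalkM
import Pool.Agent.C14E.Mid

set_option autoImplicit false

namespace Pool.Agent.Hhelper43.Cube.C14E

open Pool.Agent.Hhelper43.Cube.C14S

variable {n : ℕ}

/-- The complementary set of vertices. -/
def nT (T : V n → Bool) : V n → Bool := fun v => !T v

/-- A route with `k` colour changes in `T` and `l` colour changes outside `T`. -/
inductive R2 (χ : Sym2 (V n) → Bool) (T : V n → Bool) : ℕ → ℕ → V n × Bool → V n × Bool → Prop
  | z (a : V n × Bool) : R2 χ T 0 0 a a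
  | e {k l : ℕ} {u v : V n} {c : Bool} {b : V n × Bool} : E χ c u v → R2 χ T k l (v, c) b →
      R2 χ T k l (u, c) b
  | s {k l : ℕ} {u : V n} {c : Bool} {b : V n × Bool} : T u = true → R2 χ T k l (u, !c) b →
      R2 χ T (k + 1) l (u, c) b
  | t {k l : ℕ} {u : V n} {c : Bool} {b : V n × Bool} : T u = false → R2 χ T k l (u, !c) b →
      R2 χ T k (l + 1) (u, c) b

variable {χ : Sym2 (V n) → Bool} {T s : V n → Bool}

lemma R2_trans {k l k' l' : ℕ} {a b d : V n × Bool} (h : R2 χ T k l a b)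
    (h' : R2 χ T k' l' b d) : R2 χ T (k + k') (l + l') a d := by
  induction h with
  | z a => rw [Nat.zero_add, Nat.zero_add]; exact h'
  | e he _ ih => exact R2.e he (ih h')
  | s hs _ ih =>
    rename_i k1 l1 u c b' _
    have := R2.s hs (ih h')
    have e : k1 + 1 + k' = k1 + k' + 1 := by omega
    rw [e]; exact this
  | t hs _ ih =>
    rename_i k1 l1 u c b' _
    have := R2.t hs (ih h')
    have e : l1 + 1 + l' = l1 + l' + 1 := by omega
    rw [e]; exact this

lemma R2_Rt {k l : ℕ} {a b : V n × Bool} (h : R2 χ T k l a b) : Rt χ T k a b := by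
  induction h with
  | z a => exact Rt.z a
  | e he _ ih => exact Rt.e he ih
  | s hs _ ih => exact Rt.s hs ih
  | t hs _ ih => exact Rt.f hs ih

lemma R2_Rt' {k l : ℕ} {a b : V n × Bool} (h : R2 χ T k l a b) : Rt χ (nT T) l a b := by
  induction h with
  | z a => exact Rt.z a
  | e he _ ih => exact Rt.e he ih
  | s hs _ ih => exact Rt.f (by unfold nT; rw [hs]; rfl) ih
  | t hs _ ih => exact Rt.s (by unfold nT; rw [hs]; rfl) ih

lemma Rt_R2 {k : ℕ} {a b : V n × Bool} (h : Rt χ T k a b) : ∃ l, R2 χ T k l a b := by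
  induction h with
  | z a => exact ⟨0, R2.z a⟩
  | e he _ ih =>
    obtain ⟨l, hl⟩ := ih
    exact ⟨l, R2.e he hl⟩
  | f hf _ ih =>
    obtain ⟨l, hl⟩ := ih
    exact ⟨l + 1, R2.t hf hl⟩
  | s hf _ ih =>
    obtain ⟨l, hl⟩ := ih
    exact ⟨l, R2.s hf hl⟩

lemma nT_true {u : V n} (h : nT T u = true) : T u = false := by
  unfold nT at h
  cases hu : T u
  · rfl
  · rw [hu] at h; simp at h

lemma nT_false {u : V n} (h : nT T u = false) : T u = true := by
  unfold nT at h
  cases hu : T u
  · rw [hu] at h; simp at h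
  · rfl

lemma Rt_R2' {l : ℕ} {a b : V n × Bool} (h : Rt χ (nT T) l a b) : ∃ k, R2 χ T k l a b := by
  induction h with
  | z a => exact ⟨0, R2.z a⟩
  | e he _ ih =>
    obtain ⟨k, hk⟩ := ih
    exact ⟨k, R2.e he hk⟩
  | f hf _ ih =>
    obtain ⟨k, hk⟩ := ih
    exact ⟨k + 1, R2.s (nT_false hf) hk⟩
  | s hf _ ih =>
    obtain ⟨k, hk⟩ := ih
    exact ⟨k, R2.t (nT_true hf) hk⟩

lemma R2_St {k l : ℕ} {a b : V n × Bool} (h : R2 χ T k l a b) : St χ (k + l) a b := by
  induction h with
  | z a => exact St.z a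
  | e he _ ih => exact St.e he ih
  | @s k1 l1 u c b' _ _ ih =>
    have e : k1 + 1 + l1 = k1 + l1 + 1 := by omega
    rw [e]; exact St.s ih
  | @t k1 l1 u c b' _ _ ih =>
    have e : k1 + (l1 + 1) = k1 + l1 + 1 := by omega
    rw [e]; exact St.s ih

lemma R2_Cn {c : Bool} {x y : V n} (h : Cn χ c x y) : R2 χ T 0 0 (x, c) (y, c) := by
  induction h using Relation.ReflTransGen.head_induction_on with
  | refl => exact R2.z _
  | head hab _ ih => exact R2.e hab ih

lemma R2_exit {k0 l : ℕ} {a b : V n × Bool} (h : R2 χ T k0 l a b) (k : ℕ) (hk : k0 = k + 1) :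
    ∃ y d l1 l2, T y = true ∧ l1 + l2 = l ∧ R2 χ T 0 l1 a (y, d) ∧ R2 χ T k l2 (y, !d) b := by
  induction h with
  | z a => omega
  | e he _ ih =>
    obtain ⟨y, d, l1, l2, h1, h2, h3, h4⟩ := ih hk
    exact ⟨y, d, l1, l2, h1, h2, R2.e he h3, h4⟩
  | s hs h ih =>
    rename_i k1 l1 u c b'
    have : k1 = k := by omega
    subst this
    exact ⟨u, c, 0, l1, hs, by omega, R2.z _, h⟩
  | t ht h ih =>
    obtain ⟨y, d, l1, l2, h1, h2, h3, h4⟩ := ih hk
    exact ⟨y, d, l1 + 1, l2, h1, by omega, R2.t ht h3, h4⟩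

lemma R2_exit' {k l0 : ℕ} {a b : V n × Bool} (h : R2 χ T k l0 a b) (l : ℕ) (hk : k = 0)
    (hl : l0 = l + 1) :
    ∃ y d, T y = false ∧ R2 χ T 0 0 a (y, d) ∧ R2 χ T 0 l (y, !d) b := by
  induction h with
  | z a => omega
  | e he _ ih =>
    obtain ⟨y, d, h1, h3, h4⟩ := ih hk hl
    exact ⟨y, d, h1, R2.e he h3, h4⟩
  | s hs h ih => omega
  | t ht h ih =>
    rename_i k1 l1 u c b'
    have : l1 = l := by omega
    subst this
    subst hk
    exact ⟨u, c, ht, R2.z _, h⟩

/-- Two states in the same room of both trees are joined in one colour. -/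
def Unt (χ : Sym2 (V n) → Bool) (T : V n → Bool) : Prop :=
  ∀ x y c, Rt χ T 0 (x, c) (y, c) → Rt χ (nT T) 0 (x, c) (y, c) → Cn χ c x y

lemma alt_nT (hA : Alt T) : Alt (nT T) := by
  intro u i
  unfold nT
  rw [hA]

lemma col_eq (hA : Alt T) (hs : Pot χ s) {x y : V n} {c d : Bool}
    (h : Rt χ T 0 (x, c) (y, d)) (h' : Rt χ (nT T) 0 (x, c) (y, d)) : c = d := by
  have p1 := (Rt_par hA hs h).mpr (by simp)
  have p2 := (Rt_par (alt_nT hA) hs h').mpr (by simp)
  unfold sg nT at p2
  unfold sg at p1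
  simp only at p1 p2
  clear h h'
  revert p1 p2
  generalize T x = x1
  generalize T y = x2
  generalize s x = x3
  generalize s y = x4
  revert x1 x2 x3 x4 c d
  decide

/-- Inside a room of one tree the other distance is realised. -/
theorem room (hA : Alt T) (hs : Pot χ s) (hU : Unt χ T) : ∀ (l : ℕ) (a b : V n × Bool),
    R2 χ T 0 l a b → DT χ (nT T) a b ≤ l ∧ R2 χ T 0 (DT χ (nT T) a b) a b := by
  intro l
  induction l with
  | zero =>
    intro a b h
    have := DT_le (R2_Rt' h)
    have h0 : DT χ (nT T) a b = 0 := by omega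
    rw [h0]
    exact ⟨le_refl _, h⟩
  | succ l ih =>
    intro a b h
    refine ⟨DT_le (R2_Rt' h), ?_⟩
    obtain ⟨y, d, hy, h1, h2⟩ := R2_exit' h l rfl rfl
    obtain ⟨i1, i2⟩ := ih _ _ h2
    have hy' : nT T y = true := by unfold nT; rw [hy]; rfl
    have hab := DT_congr (R2_Rt' h1) b
    rcases DT_ne (alt_nT hA) hs hy' d b with h3 | h3
    · have h4 := R2_trans h1 (R2.t hy i2)
      rw [Nat.zero_add, Nat.zero_add] at h4
      rw [hab, ← h3]
      exact h4
    · rw [h3] at i2
      obtain ⟨y2, d2, hy2, h5, h6⟩ := R2_exit' i2 _ rfl rfl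
      have hy2' : nT T y2 = true := by unfold nT; rw [hy2]; rfl
      have e1 := DT_le (R2_Rt' h6)
      have e2 := DT_nb (χ := χ) (T := nT T) y2 d2 b
      have e3 := DT_congr (R2_Rt' h5) b
      have u := uniqT (alt_nT hA) hs (a0 := (y, !d)) (b := b) (z := y) (c := !d) (w := y2)
        (c' := d2) hy' (Rt.z _) (R2_Rt' h5) (by rw [Bool.not_not]; omega) (by omega)
      rw [Bool.not_not] at u
      have u' : Rt χ T 0 (y, d) (y2, !d2) := by
        have r1 : R2 χ T 0 0 (y2, !d2) (y2, !d2) := R2.z _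
        have r2 : R2 χ T 0 1 (y2, d2) (y2, !d2) := R2.t hy2 r1
        have r3 := R2.t hy (R2_trans h5 r2)
        exact R2_Rt r3
      have hcol := col_eq hA hs u' u
      have hc : Cn χ d y y2 := by
        refine hU y y2 d ?_ ?_
        · rw [← hcol] at u'; exact u'
        · rw [← hcol] at u; exact u
      have r4 : R2 χ T 0 0 (y, d) (y2, !d2) := by
        have := R2_Cn (T := T) hc
        rw [← hcol]
        exact this
      have r5 := R2_trans h1 (R2_trans r4 h6)
      simp only [Nat.zero_add] at r5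
      rw [hab]
      exact r5

/-- The number of changes in `T` can be made minimal without further changes outside `T`. -/
theorem reduce (hA : Alt T) (hs : Pot χ s) (hU : Unt χ T) : ∀ (k l : ℕ) (a b : V n × Bool),
    R2 χ T k l a b → ∃ l' ≤ l, R2 χ T (DT χ T a b) l' a b := by
  intro k
  induction k with
  | zero =>
    intro l a b h
    have := DT_zero (R2_Rt h)
    rw [this]
    exact ⟨l, le_refl _, h⟩
  | succ k ih =>
    intro l a b h
    obtain ⟨y, d, l0, l2, hy, hl, h1, h2⟩ := R2_exit h k rfl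
    obtain ⟨l3, hl3, i2⟩ := ih _ _ _ h2
    have hab := DT_congr (R2_Rt h1) b
    rcases DT_ne hA hs hy d b with h3 | h3
    · refine ⟨l0 + l3, by omega, ?_⟩
      have h4 := R2_trans h1 (R2.s hy i2)
      rw [Nat.zero_add] at h4
      rw [hab, ← h3]
      exact h4
    · rw [h3] at i2
      obtain ⟨y2, d2, l4, l5, hy2, hl4, h5, h6⟩ := R2_exit i2 _ rfl
      have e1 := DT_le (R2_Rt h6)
      have e2 := DT_nb (χ := χ) (T := T) y2 d2 b
      have e3 := DT_congr (R2_Rt h5) b
      have u := uniqT hA hs (a0 := (y, !d)) (b := b) (z := y) (c := !d) (w := y2)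
        (c' := d2) hy (Rt.z _) (R2_Rt h5) (by rw [Bool.not_not]; omega) (by omega)
      rw [Bool.not_not] at u
      obtain ⟨l6, h7⟩ := Rt_R2 u
      obtain ⟨-, h8⟩ := room hA hs hU l6 _ _ h7
      have n1 : nT T y = false := by unfold nT; rw [hy]; rfl
      have n2 : nT T y2 = false := by unfold nT; rw [hy2]; rfl
      have e4 : DT χ (nT T) (y, d) (y2, !d2) ≤ l4 := by
        rw [DT_congr (Rt_free n1 d (!d)), DT_congr' (Rt_free n2 (!d2) d2)]
        exact DT_le (R2_Rt' h5)
      refine ⟨l0 + (DT χ (nT T) (y, d) (y2, !d2) + l5), by omega, ?_⟩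
      have h9 := R2_trans h1 (R2_trans h8 h6)
      rw [Nat.zero_add, Nat.zero_add] at h9
      rw [hab]
      exact h9

theorem both (hA : Alt T) (hs : Pot χ s) (hU : Unt χ T) (a b : V n × Bool) :
    R2 χ T (DT χ T a b) (DT χ (nT T) a b) a b := by
  obtain ⟨k, hk⟩ := Rt_R2' (DT_rt χ (nT T) a b)
  obtain ⟨l', hl', h⟩ := reduce hA hs hU _ _ _ _ hk
  have := DT_le (R2_Rt' h)
  have e : l' = DT χ (nT T) a b := by omega
  rw [e] at h
  exact h

lemma m_le_both (hA : Alt T) (hs : Pot χ s) (hU : Unt χ T) (v : V n) (c c' : Bool) :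
    m χ v ≤ DT χ T (v, c) (anti v, c') + DT χ (nT T) (v, c) (anti v, c') :=
  (m_le_D v c c').trans (D_le (R2_St (both hA hs hU _ _)))

lemma Alt_anti (hA : Alt T) : ∀ (l : List (Fin n)) (v : V n),
    T (endp v l) = xor (T v) (decide (l.length % 2 = 1))
  | [], v => by simp [endp]
  | d :: l, v => by
    rw [endp, Alt_anti hA l (flip v d), hA, List.length_cons]
    rcases Nat.mod_two_eq_zero_or_one l.length with h | h
    · have h' : (l.length + 1) % 2 = 1 := by omega
      rw [h, h']
      cases T v <;> simp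
    · have h' : (l.length + 1) % 2 = 0 := by omega
      rw [h, h']
      cases T v <;> simp

lemma T_anti (hA : Alt T) (v : V n) : T (anti v) = xor (T v) (decide (n % 2 = 1)) := by
  have h := Alt_anti hA (Finset.univ : Finset (Fin n)).toList v
  rw [endp_univ _ (Finset.nodup_toList _) (Finset.toList_toFinset _)] at h
  rw [h]
  simp

/-- The bound for the number of colour changes, dimension even. -/
theorem m_even (hA : Alt T) (hs : Pot χ s) (hU : Unt χ T) (hn : n % 2 = 0) (v : V n) :
    2 * m χ v + 2 ≤ max (FF χ T v (anti v)) 2 + max (FF χ (nT T) v (anti v)) 2 := by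
  have ha := T_anti hA v
  rw [hn] at ha
  have ha' : T (anti v) = T v := by rw [ha]; simp
  cases hv : T v
  · have hv' : nT T v = true := by unfold nT; rw [hv]; rfl
    have hw' : nT T (anti v) = true := by unfold nT; rw [ha', hv]; rfl
    obtain ⟨c, c', h⟩ := ends_tt (χ := χ) (alt_nT hA) hs hv' hw'
    have h2 := ends_ff (χ := χ) hv (ha'.trans hv) c c'
    have h3 := m_le_both hA hs hU v c c'
    omega
  · have hv' : nT T v = false := by unfold nT; rw [hv]; rfl
    have hw' : nT T (anti v) = false := by unfold nT; rw [ha', hv]; rfl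
    obtain ⟨c, c', h⟩ := ends_tt (χ := χ) hA hs hv (ha'.trans hv)
    have h2 := ends_ff (χ := χ) hv' hw' c c'
    have h3 := m_le_both hA hs hU v c c'
    omega

/-- The bound for the number of colour changes, dimension odd. -/
theorem m_odd (hA : Alt T) (hs : Pot χ s) (hU : Unt χ T) (hn : n % 2 = 1) (v : V n) :
    2 * m χ v + 2 ≤ FF χ T v (anti v) + FF χ (nT T) v (anti v) := by
  have ha := T_anti hA v
  rw [hn] at ha
  have ha' : T (anti v) = !T v := by rw [ha]; simp
  cases hv : T v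
  · have hw : T (anti v) = true := by rw [ha', hv]; rfl
    have hv' : nT T v = true := by unfold nT; rw [hv]; rfl
    have hw' : nT T (anti v) = false := by unfold nT; rw [hw]; rfl
    obtain ⟨c', h⟩ := ends_ft (χ := χ) hA hs hv hw
    obtain ⟨c, h2⟩ := ends_tf (χ := χ) (alt_nT hA) hs hv' hw'
    have h3 := m_le_both hA hs hU v c c'
    have h4 := h c
    have h5 := h2 c'
    omega
  · have hw : T (anti v) = false := by rw [ha', hv]; rfl
    have hv' : nT T v = false := by unfold nT; rw [hv]; rfl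
    have hw' : nT T (anti v) = true := by unfold nT; rw [hw]; rfl
    obtain ⟨c, h⟩ := ends_tf (χ := χ) hA hs hv hw
    obtain ⟨c', h2⟩ := ends_ft (χ := χ) (alt_nT hA) hs hv' hw'
    have h3 := m_le_both hA hs hU v c c'
    have h4 := h c'
    have h5 := h2 c
    omega

end Pool.Agent.Hhelper43.Cube.C14E
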