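import Mathlib
import Pool.Agent.C14S.Defs

set_option autoImplicit false

namespace Pool.Agent.Hhelper43.Cube.C14E

open Pool.Agent.Hhelper43.Cube.C14S

/-- Every 4-cycle `a b c d` has an even number of edges of each colour. -/
def EvenCol {n : ℕ} (χ : Sym2 (V n) → Bool) : Prop :=
  ∀ a b c d : V n, (Q n).Adj a b → (Q n).Adj b c → (Q n).Adj c d → (Q n).Adj d a →
    a ≠ c → b ≠ d → (χ s(a, b) = χ s(b, c) ↔ χ s(c, d) = χ s(d, a))

/-- A step on pairs (vertex, colour): along an edge of the current colour, or a change of the
colour at a vertex of the set `T`. -/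
def Step {n : ℕ} (χ : Sym2 (V n) → Bool) (T : V n → Prop) (a b : V n × Bool) : Prop :=
  ((Q n).Adj a.1 b.1 ∧ χ s(a.1, b.1) = a.2 ∧ b.2 = a.2) ∨ (b.1 = a.1 ∧ T a.1)

/-- A colouring is untangled when two pairs `(x, c)` and `(y, c)` which are joined by steps with
colour changes at vertices of even weight only, and are joined by steps with colour changes at
vertices of odd weight only, are joined without colour change. -/
def Untangled {n : ℕ} (χ : Sym2 (V n) → Bool) : Prop :=
  ∀ (x y : V n) (c : Bool),
    Relation.ReflTransGen (Step χ (fun v => Even (wt v))) (x, c) (y, c) →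
    Relation.ReflTransGen (Step χ (fun v => Odd (wt v))) (x, c) (y, c) → Joined χ c x y

end Pool.Agent.Hhelper43.Cube.C14E
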