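import Mathlib
import Pool.Agent.C14S.Facet
import Pool.Agent.C14E.Mid

set_option autoImplicit false

namespace Pool.Agent.Hhelper43.Cube.C14E

open Finset Pool.Agent.Hhelper43.Cube.C14S

lemma even_mono {Φ : ℝ → ℝ} (hc : ConvexOn ℝ Set.univ Φ) (he : ∀ x, Φ (-x) = Φ x) {a b : ℝ}
    (ha : 0 ≤ a) (hab : a ≤ b) : Φ a ≤ Φ b := by
  rcases eq_or_lt_of_le (ha.trans hab) with hb | hb
  · have : a = b := by linarith
    rw [this]
  · have h := cvx hc b (-b) ((b + a) / (2 * b)) ((b - a) / (2 * b))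
      (div_nonneg (by linarith) (by linarith)) (div_nonneg (by linarith) (by linarith))
      (by field_simp; ring)
    rw [he] at h
    have e1 : (b + a) / (2 * b) * b + (b - a) / (2 * b) * -b = a := by
      field_simp; ring
    have e2 : (b + a) / (2 * b) * Φ b + (b - a) / (2 * b) * Φ b = Φ b := by
      field_simp; ring
    rw [e1, e2] at h
    exact h

lemma step_three {Ψ : ℝ → ℝ} (hc : ConvexOn ℝ Set.univ Ψ) (he : ∀ x, Ψ (-x) = Ψ x)
    (x y X Y : ℝ) (h0 : 0 ≤ x + y) (h1 : x + y ≤ X + Y) (h2 : x ≤ y + 2) (h3 : y ≤ x + 2) :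
    Ψ x + Ψ y ≤ TT Ψ X + TT Ψ Y := by
  have a1 := step_two hc x y ((x + y) / 2) ((x + y) / 2) (by ring) h2 h3
  have a2 := even_mono (TT_convex hc) (TT_even he) (a := (x + y) / 2) (b := (X + Y) / 2)
    (by linarith) (by linarith)
  have a3 := mid (TT_convex hc) X Y
  linarith

/-- The sum over antipodal pairs is at most the one of the layered colouring. -/
theorem facet' : ∀ (k : ℕ) (δ : V k → V k → ℕ) (_ : QP' δ) (_ : ∀ v, δ v v = 0)
    (Ψ : ℝ → ℝ) (_ : ConvexOn ℝ Set.univ Ψ) (_ : ∀ x, Ψ (-x) = Ψ x),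
    ∑ v : V k, Ψ (δ v (anti v)) ≤ ∑ v : V k, Ψ ((k : ℝ) - 2 * wt v)
  | 0, δ, _, h0, Ψ, _, _ => by
    refine Finset.sum_le_sum fun v _ => ?_
    have e1 : anti v = v := by
      funext i
      exact i.elim0
    have e2 : wt v = 0 := by
      unfold wt
      simp
    rw [e1, h0, e2]
    simp
  | k + 1, δ, hQ, h0, Ψ, hc, he => by
    have hb : ∀ b : Bool, ∑ v : V k, TT Ψ (δ (Fin.cons b v) (Fin.cons b (anti v)))
        ≤ ∑ v : V k, TT Ψ ((k : ℝ) - 2 * wt v) := by
      intro b
      exact facet' k (fun v w => δ (Fin.cons b v) (Fin.cons b w))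
        (fun p q p' q' h h' => hQ _ _ _ _ (adj_cons b h) (adj_cons b h'))
        (fun v => h0 _) (TT Ψ) (TT_convex hc) (TT_even he)
    rw [sum_cons, sum_cons]
    have h1 : ∑ v : V k, (Ψ (δ (Fin.cons true v) (anti (Fin.cons true v)))
        + Ψ (δ (Fin.cons false v) (anti (Fin.cons false v))))
        ≤ ∑ v : V k, (TT Ψ (δ (Fin.cons true v) (Fin.cons true (anti v)))
          + TT Ψ (δ (Fin.cons false v) (Fin.cons false (anti v)))) := by
      refine Finset.sum_le_sum fun v _ => ?_
      rw [anti_cons, anti_cons, Bool.not_true, Bool.not_false]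
      rcases hQ _ _ _ _ (adj_tf v) (adj_tf (anti v)) with ⟨a, b⟩ | ⟨a, b, c⟩
      · have t : ∀ j : ℕ, j ≤ 1 → Ψ j ≤ Ψ 1 := by
          intro j hj
          interval_cases j
          · simpa using zero_le_one' hc he
          · simp
        have := t _ a
        have := t _ b
        have := step_one hc he (δ (Fin.cons true v) (Fin.cons true (anti v)))
        have := step_one hc he (δ (Fin.cons false v) (Fin.cons false (anti v)))
        linarith
      · refine step_three hc he _ _ _ _ (by positivity) ?_ ?_ ?_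
        · exact_mod_cast a
        · exact_mod_cast b
        · exact_mod_cast c
    refine h1.trans ?_
    rw [Finset.sum_add_distrib]
    refine (add_le_add (hb true) (hb false)).trans (le_of_eq ?_)
    rw [← Finset.sum_add_distrib]
    refine Finset.sum_congr rfl fun v _ => ?_
    rw [wt_cons, wt_cons]
    unfold TT
    simp only [if_true, Bool.false_eq_true, if_false]
    push_cast
    have e1 : (k : ℝ) + 1 - 2 * (1 + wt v) = (k : ℝ) - 2 * wt v - 1 := by ring
    have e2 : (k : ℝ) + 1 - 2 * (0 + wt v) = (k : ℝ) - 2 * wt v + 1 := by ring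
    rw [e1, e2]
    ring

end Pool.Agent.Hhelper43.Cube.C14E
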