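import Mathlib
import Pool.Agent.C14S.Room
import Pool.Agent.C14E.Defs

set_option autoImplicit false

namespace Pool.Agent.Hhelper43.Cube.C14E

open Finset Pool.Agent.Hhelper43.Cube.C14S

variable {n : ℕ}

/-- The shape of a 4-cycle of the cube. -/
lemma square {a b c d : V n} (hab : (Q n).Adj a b) (hbc : (Q n).Adj b c) (hcd : (Q n).Adj c d)
    (hda : (Q n).Adj d a) (hac : a ≠ c) (hbd : b ≠ d) :
    ∃ i j, i ≠ j ∧ b = flip a i ∧ c = flip (flip a i) j ∧ d = flip a j := by
  obtain ⟨i, rfl⟩ := adj_iff _ _ hab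
  obtain ⟨j, rfl⟩ := adj_iff _ _ hbc
  obtain ⟨k, rfl⟩ := adj_iff _ _ hcd
  obtain ⟨l, hl⟩ := adj_iff _ _ hda
  have hij : i ≠ j := by
    rintro rfl
    exact hac (flip_flip _ _).symm
  have hjk : j ≠ k := by
    rintro rfl
    exact hbd (flip_flip _ _).symm
  have hlj : l = j := by
    by_contra hne
    have := congrFun hl j
    simp only [flip_apply] at this
    rw [if_neg (Ne.symm hne), if_neg hjk, if_pos trivial, if_neg hij.symm] at this
    simp at this
  subst hlj
  have hki : k = i := by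
    by_contra hne
    have := congrFun hl i
    simp only [flip_apply] at this
    rw [if_neg hij, if_neg (Ne.symm hne), if_neg hij, if_pos trivial] at this
    simp at this
  subst hki
  refine ⟨k, l, hij, rfl, rfl, ?_⟩
  rw [flip_comm a k l, flip_flip]

lemma wt_pm (v : V n) (d : Fin n) : wt (flip v d) + 1 = wt v ∨ wt (flip v d) = wt v + 1 := by
  rcases wt_flip v d with ⟨-, h⟩ | ⟨-, h⟩
  · exact Or.inl h
  · exact Or.inr h

lemma wt_sq (a : V n) {i j : Fin n} (hij : i ≠ j) :
    wt a + wt (flip (flip a i) j) = wt (flip a i) + wt (flip a j) := by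
  have w1 := wt_flip (flip a i) j
  have w2 := wt_flip a j
  have e : flip a i j = a j := by
    rw [flip_apply, if_neg hij.symm]
  rw [e] at w1
  cases hj : a j
  · simp only [hj, Bool.false_eq_true, false_and, true_and, false_or] at w1 w2
    omega
  · simp only [hj, Bool.true_eq_false, false_and, true_and, or_false] at w1 w2
    omega

lemma lev_four {h x0 x1 x2 x3 : ℕ} (h1 : x1 + 1 = x0 ∨ x1 = x0 + 1)
    (h3 : x3 + 1 = x0 ∨ x3 = x0 + 1) (h2 : x0 + x2 = x1 + x3) :
    (lev h x0 x1 + lev h x1 x2 + lev h x2 x3 + lev h x3 x0) % 2 = 0 := by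
  unfold lev
  omega

theorem wall_even (h : ℕ) (z : Fin n) : EvenCol (chi h z (id : V n → V n)) := by
  intro a b c d hab hbc hcd hda hac hbd
  obtain ⟨i, j, hij, rfl, rfl, rfl⟩ := square hab hbc hcd hda hac hbd
  have p1 := lev_four (h := h) (wt_pm a i) (wt_pm a j) (wt_sq a hij)
  have p2 := lev_four (h := h) (wt_pm (flip a z) i) (wt_pm (flip a z) j) (wt_sq (flip a z) hij)
  rw [flip_comm a z i, flip_comm a z j, flip_comm (flip a i) z j] at p2
  rw [chi_mk, chi_mk, chi_mk, chi_mk]
  simp only [id]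
  rw [decide_eq_decide, decide_eq_decide, Nat.even_iff, Nat.even_iff, Nat.even_iff,
    Nat.even_iff]
  omega

/-- The levels of a pair (vertex, colour). -/
def Lv (h : ℕ) (z : Fin n) (x : V n) (c : Bool) (l1 l2 : ℕ) : Prop :=
  (2 * l1 ≤ wt x + h ∧ wt x + h ≤ 2 * l1 + 2) ∧
  (2 * l2 ≤ wt (flip x z) + h ∧ wt (flip x z) + h ≤ 2 * l2 + 2) ∧ c = decide (Even (l1 + l2))

lemma dec_par {a b : ℕ} (h : decide (Even a) = decide (Even b)) : a % 2 = b % 2 := by
  rw [decide_eq_decide, Nat.even_iff, Nat.even_iff] at h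
  omega

lemma dec_par' {a b : ℕ} (h : a % 2 = b % 2) : decide (Even a) = decide (Even b) := by
  rw [decide_eq_decide, Nat.even_iff, Nat.even_iff]
  omega

lemma dec_not {a b : ℕ} (h : a % 2 ≠ b % 2) : (!decide (Even a)) = decide (Even b) := by
  by_cases h1 : Even a <;> by_cases h2 : Even b
  · rw [Nat.even_iff] at h1 h2; omega
  · simp [h1, h2]
  · simp [h1, h2]
  · rw [Nat.even_iff] at h1 h2; omega

variable {h : ℕ} {z : Fin n}

lemma Lv_uniq {x : V n} {c : Bool} {l1 l2 k1 k2 : ℕ} (h1 : Lv h z x c l1 l2)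
    (h2 : Lv h z x c k1 k2) : l1 = k1 ∧ l2 = k2 := by
  obtain ⟨a1, a2, a3⟩ := h1
  obtain ⟨b1, b2, b3⟩ := h2
  have hp := dec_par (a3.symm.trans b3)
  have hz := wt_pm x z
  omega

lemma Lv_edge {x y : V n} (hxy : (Q n).Adj x y) :
    Lv h z x (chi h z (id : V n → V n) s(x, y)) (lev h (wt x) (wt y))
      (lev h (wt (flip x z)) (wt (flip y z))) :=
  ⟨lev_bd h _ _ (wt_near _ _ (Or.inr hxy)), lev_bd h _ _ (wt_near_flip z _ _ (Or.inr hxy)), rfl⟩

lemma Lv_edge' {x y : V n} (hxy : (Q n).Adj x y) :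
    Lv h z y (chi h z (id : V n → V n) s(x, y)) (lev h (wt x) (wt y))
      (lev h (wt (flip x z)) (wt (flip y z))) := by
  have := Lv_edge (h := h) (z := z) hxy.symm
  rw [Sym2.eq_swap, lev_comm h (wt y), lev_comm h (wt (flip y z))] at this
  exact this

lemma Lv_step {x y : V n} {c : Bool} {l1 l2 : ℕ} (hxy : (Q n).Adj x y)
    (hc : chi h z (id : V n → V n) s(x, y) = c) (hl : Lv h z x c l1 l2) : Lv h z y c l1 l2 := by
  have e1 := Lv_edge (h := h) (z := z) hxy
  have e2 := Lv_edge' (h := h) (z := z) hxy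
  rw [hc] at e1 e2
  obtain ⟨r1, r2⟩ := Lv_uniq hl e1
  rw [r1, r2]
  exact e2

lemma Lv_sw1 (hh : 1 ≤ h) {x : V n} {c d : Bool} {l1 l2 : ℕ} (hx : (wt x + h) % 2 = 0)
    (hl : Lv h z x c l1 l2) : ∃ k, Lv h z x d k l2 := by
  by_cases hcd : d = c
  · rw [hcd]; exact ⟨l1, hl⟩
  have hd : d = !c := by revert hcd; cases c <;> cases d <;> simp
  obtain ⟨a1, a2, a3⟩ := hl
  by_cases hq : 2 * l1 = wt x + h
  · refine ⟨l1 - 1, by omega, a2, ?_⟩
    rw [hd, a3]
    exact dec_not (by omega)
  · refine ⟨l1 + 1, by omega, a2, ?_⟩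
    rw [hd, a3]
    exact dec_not (by omega)

lemma Lv_sw2 (hh : 1 ≤ h) {x : V n} {c d : Bool} {l1 l2 : ℕ} (hx : (wt x + h) % 2 = 1)
    (hl : Lv h z x c l1 l2) : ∃ k, Lv h z x d l1 k := by
  by_cases hcd : d = c
  · rw [hcd]; exact ⟨l2, hl⟩
  have hd : d = !c := by revert hcd; cases c <;> cases d <;> simp
  obtain ⟨a1, a2, a3⟩ := hl
  have hz := wt_pm x z
  by_cases hq : 2 * l2 = wt (flip x z) + h
  · refine ⟨l2 - 1, a1, by omega, ?_⟩
    rw [hd, a3]
    exact dec_not (by omega)
  · refine ⟨l2 + 1, a1, by omega, ?_⟩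
    rw [hd, a3]
    exact dec_not (by omega)

lemma Lv_ex (hh : 1 ≤ h) (x : V n) (c : Bool) : ∃ l1 l2, Lv h z x c l1 l2 := by
  have h0 : ∃ d l1 l2, Lv h z x d l1 l2 :=
    ⟨_, (wt x + h) / 2, (wt (flip x z) + h) / 2, by omega, by omega, rfl⟩
  obtain ⟨d, l1, l2, hl⟩ := h0
  rcases Nat.mod_two_eq_zero_or_one (wt x + h) with hx | hx
  · obtain ⟨k, hk⟩ := Lv_sw1 (d := c) hh hx hl
    exact ⟨k, l2, hk⟩
  · obtain ⟨k, hk⟩ := Lv_sw2 (d := c) hh hx hl
    exact ⟨l1, k, hk⟩

lemma reach1 (hh : 1 ≤ h) {P : V n → Prop} (hP : ∀ v, P v → (wt v + h) % 2 = 0)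
    {a b : V n × Bool} (hr : Relation.ReflTransGen (Step (chi h z (id : V n → V n)) P) a b)
    {l1 l2 : ℕ} (hl : Lv h z a.1 a.2 l1 l2) : ∃ k, Lv h z b.1 b.2 k l2 := by
  induction hr with
  | refl => exact ⟨l1, hl⟩
  | tail _ hs ih =>
    obtain ⟨k, hk⟩ := ih
    rcases hs with ⟨s1, s2, s3⟩ | ⟨s1, s2⟩
    · refine ⟨k, ?_⟩
      rw [s3]
      exact Lv_step s1 s2 hk
    · rw [s1]
      exact Lv_sw1 hh (hP _ s2) hk

lemma reach2 (hh : 1 ≤ h) {P : V n → Prop} (hP : ∀ v, P v → (wt v + h) % 2 = 1)
    {a b : V n × Bool} (hr : Relation.ReflTransGen (Step (chi h z (id : V n → V n)) P) a b)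
    {l1 l2 : ℕ} (hl : Lv h z a.1 a.2 l1 l2) : ∃ k, Lv h z b.1 b.2 l1 k := by
  induction hr with
  | refl => exact ⟨l2, hl⟩
  | tail _ hs ih =>
    obtain ⟨k, hk⟩ := ih
    rcases hs with ⟨s1, s2, s3⟩ | ⟨s1, s2⟩
    · refine ⟨k, ?_⟩
      rw [s3]
      exact Lv_step s1 s2 hk
    · rw [s1]
      exact Lv_sw2 hh (hP _ s2) hk

lemma pick {x y : V n} (hne : x ≠ y) (hw : wt x ≤ wt y) : ∃ i, x i = false ∧ y i = true := by
  by_contra hcon
  push Not at hcon
  have hsub : (univ.filter fun i => y i = true) ⊆ (univ.filter fun i => x i = true) := by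
    intro i hi
    simp only [Finset.mem_filter, Finset.mem_univ, true_and] at hi ⊢
    by_contra hx
    exact hcon i (by simpa using hx) hi
  have heq := Finset.eq_of_subset_of_card_le hsub hw
  apply hne
  funext i
  have hi := Finset.ext_iff.mp heq i
  simp only [Finset.mem_filter, Finset.mem_univ, true_and] at hi
  cases hx : x i <;> cases hy : y i <;> simp_all

lemma dist_flip {x y : V n} {i : Fin n} (hi : x i ≠ y i) :
    hammingDist (flip x i) y + 1 = hammingDist x y := by
  unfold hammingDist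
  have h1 : (univ.filter fun j => flip x i j ≠ y j) = (univ.filter fun j => x j ≠ y j).erase i := by
    ext j
    simp only [Finset.mem_filter, Finset.mem_univ, true_and, Finset.mem_erase, flip_apply]
    by_cases hj : j = i
    · subst hj
      revert hi
      cases x j <;> cases y j <;> simp
    · simp [hj]
  rw [h1, Finset.card_erase_of_mem (by simp [hi])]
  have : 0 < #{j | x j ≠ y j} := Finset.card_pos.mpr ⟨i, by simp [hi]⟩
  omega

lemma joined_cons {χ : Sym2 (V n) → Bool} {c : Bool} {x y w : V n} (h1 : (Q n).Adj x y)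
    (h2 : χ s(x, y) = c) (h3 : Joined χ c y w) : Joined χ c x w := by
  obtain ⟨p, hp⟩ := h3
  refine ⟨SimpleGraph.Walk.cons h1 p, ?_⟩
  intro e he
  rw [SimpleGraph.Walk.edges_cons, List.mem_cons] at he
  rcases he with rfl | he
  · exact h2
  · exact hp e he

lemma flip_ne_apply (x : V n) {i j : Fin n} (hij : i ≠ j) : flip x j i = x i := by
  rw [flip_apply, if_neg hij]

theorem conn : ∀ (d : ℕ) (x y : V n) (c : Bool) (l1 l2 : ℕ), hammingDist x y = d →
    Lv h z x c l1 l2 → Lv h z y c l1 l2 → Joined (chi h z (id : V n → V n)) c x y := by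
  intro d
  induction d with
  | zero =>
    intro x y c l1 l2 hd hx hy
    have := hammingDist_eq_zero.mp hd
    subst this
    exact ⟨SimpleGraph.Walk.nil, by simp⟩
  | succ d ih =>
    intro x y c l1 l2 hd hx hy
    have hne : x ≠ y := by
      rintro rfl
      simp at hd
    have key : ∀ i, x i ≠ y i → chi h z (id : V n → V n) s(x, flip x i) = c →
        Joined (chi h z (id : V n → V n)) c x y := by
      intro i hi hc
      have h1 := dist_flip hi
      refine joined_cons (adj_flip x i) hc ?_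
      exact ih (flip x i) y c l1 l2 (by omega) (Lv_step (adj_flip x i) hc hx) hy
    obtain ⟨a1, a2, a3⟩ := hx
    obtain ⟨b1, b2, b3⟩ := hy
    have wx := wt_flip x z
    have wy := wt_flip y z
    by_cases hz : x z = y z
    · have wxy : wt x + wt (flip y z) = wt y + wt (flip x z) := by
        cases hxz : x z
        · have hyz := hz.symm.trans hxz
          simp only [hxz, hyz, Bool.false_eq_true, false_and, true_and, false_or] at wx wy
          omega
        · have hyz := hz.symm.trans hxz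
          simp only [hxz, hyz, Bool.true_eq_false, false_and, true_and, or_false] at wx wy
          omega
      have hpx := wt_pm x z
      by_cases hup : ((wt x + h) / 2 + (wt (flip x z) + h) / 2) % 2 = (l1 + l2) % 2
      · obtain ⟨i, hi1, hi2⟩ := pick hne (by omega)
        have hiz : i ≠ z := by
          rintro rfl
          rw [hi1, hi2] at hz
          simp at hz
        refine key i (by rw [hi1, hi2]; simp) ?_
        have e1 := wt_flip x i
        have e2 := wt_flip (flip x z) i
        rw [flip_ne_apply x hiz, flip_comm x z i] at e2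
        simp only [hi1, Bool.false_eq_true, false_and, true_and, false_or] at e1 e2
        rw [chi_mk, a3]
        refine dec_par' ?_
        simp only [id]
        rw [e1, e2]
        unfold lev
        rw [min_eq_left (by omega), min_eq_left (by omega)]
        exact hup
      · obtain ⟨i, hi1, hi2⟩ := pick hne.symm (by omega)
        have hiz : i ≠ z := by
          rintro rfl
          rw [hi1, hi2] at hz
          simp at hz
        refine key i (by rw [hi1, hi2]; simp) ?_
        have e1 := wt_flip x i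
        have e2 := wt_flip (flip x z) i
        rw [flip_ne_apply x hiz, flip_comm x z i] at e2
        simp only [hi2, Bool.true_eq_false, false_and, true_and, or_false] at e1 e2
        rw [chi_mk, a3]
        refine dec_par' ?_
        simp only [id]
        unfold lev
        rw [min_eq_right (by omega), min_eq_right (by omega)]
        omega
    · refine key z hz ?_
      have hct : (l1 + l2) % 2 = 0 := by
        cases hxz : x z <;> cases hyz : y z
        · rw [hxz, hyz] at hz; exact absurd rfl hz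
        · simp only [hxz, hyz, Bool.true_eq_false, Bool.false_eq_true, false_and, true_and,
            or_false, false_or] at wx wy
          omega
        · simp only [hxz, hyz, Bool.true_eq_false, Bool.false_eq_true, false_and, true_and,
            or_false, false_or] at wx wy
          omega
        · rw [hxz, hyz] at hz; exact absurd rfl hz
      rw [chi_mk, a3]
      refine dec_par' ?_
      simp only [id]
      rw [flip_flip, lev_comm h (wt (flip x z)) (wt x)]
      omega

theorem wall_untangled (hh : 1 ≤ h) (z : Fin n) : Untangled (chi h z (id : V n → V n)) := by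
  intro x y c h1 h2
  obtain ⟨l1, l2, hl⟩ := Lv_ex (z := z) hh x c
  rcases Nat.mod_two_eq_zero_or_one h with hp | hp
  · obtain ⟨k1, g1⟩ := reach1 hh (fun v hv => by
      have hv' : Even (wt v) := hv
      rw [Nat.even_iff] at hv'
      omega) h1 hl
    obtain ⟨k2, g2⟩ := reach2 hh (fun v hv => by
      have hv' : Odd (wt v) := hv
      rw [Nat.odd_iff] at hv'
      omega) h2 hl
    obtain ⟨e1, e2⟩ := Lv_uniq g1 g2
    rw [e1] at g1
    exact conn _ x y c l1 l2 rfl hl g1
  · obtain ⟨k1, g1⟩ := reach2 hh (fun v hv => by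
      have hv' : Even (wt v) := hv
      rw [Nat.even_iff] at hv'
      omega) h1 hl
    obtain ⟨k2, g2⟩ := reach1 hh (fun v hv => by
      have hv' : Odd (wt v) := hv
      rw [Nat.odd_iff] at hv'
      omega) h2 hl
    obtain ⟨e1, e2⟩ := Lv_uniq g1 g2
    rw [e2] at g1
    exact conn _ x y c l1 l2 rfl hl g1

end Pool.Agent.Hhelper43.Cube.C14E
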