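import Mathlib
import Pool.Agent.C14S.Lay
import Pool.Agent.C14E.Wall

set_option autoImplicit false

namespace Pool.Agent.Hhelper43.Cube.C14E

open Finset Pool.Agent.Hhelper43.Cube.C14S

variable {n : ℕ}

lemma min_four {x0 x1 x2 x3 : ℕ} (h1 : x1 + 1 = x0 ∨ x1 = x0 + 1)
    (h3 : x3 + 1 = x0 ∨ x3 = x0 + 1) (h2 : x0 + x2 = x1 + x3) :
    (min x0 x1 + min x1 x2 + min x2 x3 + min x3 x0) % 2 = 0 := by
  omega

theorem layered_even (n : ℕ) : EvenCol (layered n) := by
  intro a b c d hab hbc hcd hda hac hbd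
  obtain ⟨i, j, hij, rfl, rfl, rfl⟩ := square hab hbc hcd hda hac hbd
  have p1 := min_four (wt_pm a i) (wt_pm a j) (wt_sq a hij)
  rw [layered_mk, layered_mk, layered_mk, layered_mk]
  rw [decide_eq_decide, decide_eq_decide, Nat.even_iff, Nat.even_iff, Nat.even_iff,
    Nat.even_iff]
  omega

/-- The level of a pair (vertex, colour). -/
def Lw (x : V n) (c : Bool) (k : ℕ) : Prop :=
  k ≤ wt x + 2 ∧ wt x + 2 ≤ k + 1 ∧ c = decide (Even k)

lemma Lw_uniq {x : V n} {c : Bool} {k l : ℕ} (h1 : Lw x c k) (h2 : Lw x c l) : k = l := by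
  obtain ⟨a1, a2, a3⟩ := h1
  obtain ⟨b1, b2, b3⟩ := h2
  have hp := dec_par (a3.symm.trans b3)
  omega

lemma Lw_edge {x y : V n} (hxy : (Q n).Adj x y) :
    Lw x (layered n s(x, y)) (min (wt x) (wt y) + 2) := by
  have hw := wt_near _ _ (Or.inr hxy)
  refine ⟨by omega, by omega, ?_⟩
  rw [layered_mk]
  exact dec_par' (by omega)

lemma Lw_step {x y : V n} {c : Bool} {k : ℕ} (hxy : (Q n).Adj x y)
    (hc : layered n s(x, y) = c) (hl : Lw x c k) : Lw y c k := by
  have e1 := Lw_edge hxy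
  have e2 := Lw_edge hxy.symm
  rw [Sym2.eq_swap, min_comm] at e2
  rw [hc] at e1 e2
  rw [Lw_uniq hl e1]
  exact e2

lemma Lw_sw1 {x : V n} {c d : Bool} {k : ℕ} (hx : wt x % 2 = 0) (hl : Lw x c k) :
    ∃ l, Lw x d l ∧ (l + 1) / 2 = (k + 1) / 2 := by
  by_cases hcd : d = c
  · rw [hcd]; exact ⟨k, hl, rfl⟩
  have hd : d = !c := by revert hcd; cases c <;> cases d <;> simp
  obtain ⟨a1, a2, a3⟩ := hl
  by_cases hq : k = wt x + 2
  · refine ⟨k - 1, ⟨by omega, by omega, ?_⟩, by omega⟩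
    rw [hd, a3]
    exact dec_not (by omega)
  · refine ⟨k + 1, ⟨by omega, by omega, ?_⟩, by omega⟩
    rw [hd, a3]
    exact dec_not (by omega)

lemma Lw_sw2 {x : V n} {c d : Bool} {k : ℕ} (hx : wt x % 2 = 1) (hl : Lw x c k) :
    ∃ l, Lw x d l ∧ l / 2 = k / 2 := by
  by_cases hcd : d = c
  · rw [hcd]; exact ⟨k, hl, rfl⟩
  have hd : d = !c := by revert hcd; cases c <;> cases d <;> simp
  obtain ⟨a1, a2, a3⟩ := hl
  by_cases hq : k = wt x + 2
  · refine ⟨k - 1, ⟨by omega, by omega, ?_⟩, by omega⟩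
    rw [hd, a3]
    exact dec_not (by omega)
  · refine ⟨k + 1, ⟨by omega, by omega, ?_⟩, by omega⟩
    rw [hd, a3]
    exact dec_not (by omega)

lemma Lw_ex (x : V n) (c : Bool) : ∃ k, Lw x c k := by
  by_cases hc : c = decide (Even (wt x + 2))
  · exact ⟨wt x + 2, by omega, by omega, hc⟩
  · refine ⟨wt x + 1, by omega, by omega, ?_⟩
    have e : decide (Even (wt x + 1)) = !decide (Even (wt x + 2)) := by
      symm
      exact dec_not (by omega)
    rw [e]
    revert hc
    generalize decide (Even (wt x + 2)) = t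
    cases c <;> cases t <;> simp

lemma lreach1 {a b : V n × Bool}
    (hr : Relation.ReflTransGen (Step (layered n) (fun v => Even (wt v))) a b) {k : ℕ}
    (hl : Lw a.1 a.2 k) : ∃ l, Lw b.1 b.2 l ∧ (l + 1) / 2 = (k + 1) / 2 := by
  induction hr with
  | refl => exact ⟨k, hl, rfl⟩
  | tail _ hs ih =>
    obtain ⟨l, hk, he⟩ := ih
    rcases hs with ⟨s1, s2, s3⟩ | ⟨s1, s2⟩
    · refine ⟨l, ?_, he⟩
      rw [s3]
      exact Lw_step s1 s2 hk
    · rw [s1]
      obtain ⟨l', h1, h2⟩ := Lw_sw1 (Nat.even_iff.mp s2) hk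
      exact ⟨l', h1, h2.trans he⟩

lemma lreach2 {a b : V n × Bool}
    (hr : Relation.ReflTransGen (Step (layered n) (fun v => Odd (wt v))) a b) {k : ℕ}
    (hl : Lw a.1 a.2 k) : ∃ l, Lw b.1 b.2 l ∧ l / 2 = k / 2 := by
  induction hr with
  | refl => exact ⟨k, hl, rfl⟩
  | tail _ hs ih =>
    obtain ⟨l, hk, he⟩ := ih
    rcases hs with ⟨s1, s2, s3⟩ | ⟨s1, s2⟩
    · refine ⟨l, ?_, he⟩
      rw [s3]
      exact Lw_step s1 s2 hk
    · rw [s1]
      obtain ⟨l', h1, h2⟩ := Lw_sw2 (Nat.odd_iff.mp s2) hk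
      exact ⟨l', h1, h2.trans he⟩

theorem lconn : ∀ (d : ℕ) (x y : V n) (c : Bool) (k : ℕ), hammingDist x y = d →
    Lw x c k → Lw y c k → Joined (layered n) c x y := by
  intro d
  induction d with
  | zero =>
    intro x y c k hd hx hy
    have := hammingDist_eq_zero.mp hd
    subst this
    exact ⟨SimpleGraph.Walk.nil, by simp⟩
  | succ d ih =>
    intro x y c k hd hx hy
    have hne : x ≠ y := by
      rintro rfl
      simp at hd
    have key : ∀ i, x i ≠ y i → layered n s(x, flip x i) = c →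
        Joined (layered n) c x y := by
      intro i hi hc
      have h1 := dist_flip hi
      refine joined_cons (adj_flip x i) hc ?_
      exact ih (flip x i) y c k (by omega) (Lw_step (adj_flip x i) hc hx) hy
    obtain ⟨a1, a2, a3⟩ := hx
    obtain ⟨b1, b2, b3⟩ := hy
    by_cases hup : k = wt x + 2
    · obtain ⟨i, hi1, hi2⟩ := pick hne (by omega)
      refine key i (by rw [hi1, hi2]; simp) ?_
      have e1 := wt_flip x i
      simp only [hi1, Bool.false_eq_true, false_and, true_and, false_or] at e1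
      rw [layered_mk, a3]
      exact dec_par' (by omega)
    · obtain ⟨i, hi1, hi2⟩ := pick hne.symm (by omega)
      refine key i (by rw [hi1, hi2]; simp) ?_
      have e1 := wt_flip x i
      simp only [hi2, Bool.true_eq_false, false_and, true_and, or_false] at e1
      rw [layered_mk, a3]
      exact dec_par' (by omega)

theorem layered_untangled (n : ℕ) : Untangled (layered n) := by
  intro x y c h1 h2
  obtain ⟨k, hl⟩ := Lw_ex x c
  obtain ⟨k1, g1, r1⟩ := lreach1 h1 hl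
  obtain ⟨k2, g2, r2⟩ := lreach2 h2 hl
  have e := Lw_uniq g1 g2
  have e' : k1 = k := by omega
  rw [e'] at g1
  exact lconn _ x y c k rfl hl g1

end Pool.Agent.Hhelper43.Cube.C14E
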