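import Mathlib
import Pool.Agent.C14S.Coc
import Pool.Agent.C14S.Lay
import Pool.Agent.C14E.Defs
import Pool.Agent.C14E.Add
import Pool.Agent.C14E.Fac

set_option autoImplicit false

namespace Pool.Agent.Hhelper43.Cube.C14E

open Finset Pool.Agent.Hhelper43.Cube.C14S

variable {n : ℕ} {χ : Sym2 (V n) → Bool}

lemma pot_of (h : EvenCol χ) : ∃ s, Pot χ s := by
  obtain ⟨P, hP⟩ := coc n (ecol χ) (fun u i => ecol_flip χ u i) (by
    intro u i j hij
    have e1 : χ s(flip (flip u i) j, flip u j) = ecol χ (flip u j) i := by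
      rw [flip_comm, Sym2.eq_swap]; rfl
    have e2 : χ s(flip u j, u) = ecol χ u j := by
      rw [Sym2.eq_swap]; rfl
    have hne1 : u ≠ flip (flip u i) j := by
      intro e
      have := congrFun e i
      rw [flip_apply, if_neg hij, flip_apply, if_pos rfl] at this
      simp at this
    have hne2 : flip u i ≠ flip u j := by
      intro e
      have := congrFun e i
      rw [flip_apply, if_pos rfl, flip_apply, if_neg hij] at this
      simp at this
    have h1 := h u (flip u i) (flip (flip u i) j) (flip u j) (adj_flip _ _) (adj_flip _ _)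
      (by rw [flip_comm]; exact (adj_flip _ _).symm) (adj_flip _ _).symm hne1 hne2
    rw [e1, e2] at h1
    change (ecol χ u i = ecol χ (flip u i) j ↔ _) at h1
    revert h1
    generalize ecol χ u i = x1
    generalize ecol χ (flip u i) j = x2
    generalize ecol χ (flip u j) i = x3
    generalize ecol χ u j = x4
    revert x1 x2 x3 x4
    decide)
  exact ⟨P, hP⟩

/-- The vertices of even weight. -/
def ev (n : ℕ) : V n → Bool := fun v => decide (Even (wt v))

lemma alt_ev : Alt (ev n) := by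
  intro u i
  unfold ev
  have hw : wt (flip u i) + 1 = wt u ∨ wt (flip u i) = wt u + 1 := by
    rcases wt_flip u i with ⟨-, h⟩ | ⟨-, h⟩
    · exact Or.inl h
    · exact Or.inr h
  by_cases h1 : Even (wt (flip u i)) <;> by_cases h2 : Even (wt u)
  · exfalso
    rw [Nat.even_iff] at h1 h2
    omega
  · simp [h1, h2]
  · simp [h1, h2]
  · exfalso
    rw [Nat.even_iff] at h1 h2
    omega

lemma Rt_Step {T : V n → Bool} {P : V n → Prop} (hP : ∀ v, T v = false → P v) {k : ℕ}
    {a b : V n × Bool} (h : Rt χ T k a b) (hk : k = 0) : Relation.ReflTransGen (Step χ P) a b := by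
  induction h with
  | z a => exact Relation.ReflTransGen.refl
  | @e k u v c b he _ ih =>
    have h1 : Step χ P (u, c) (v, c) := Or.inl ⟨he.1, he.2, rfl⟩
    exact Relation.ReflTransGen.head h1 (ih hk)
  | @f k u c b hf _ ih =>
    have h1 : Step χ P (u, c) (u, !c) := Or.inr ⟨rfl, hP _ hf⟩
    exact Relation.ReflTransGen.head h1 (ih hk)
  | s _ _ _ => omega

lemma unt_of (h : Untangled χ) : Unt χ (ev n) := by
  intro x y c h1 h2
  refine Cn_of_joined (h x y c ?_ ?_)
  · refine Rt_Step (fun v hv => ?_) h2 rfl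
    have := nT_false hv
    unfold ev at this
    exact of_decide_eq_true this
  · refine Rt_Step (fun v hv => ?_) h1 rfl
    unfold ev at hv
    rw [← Nat.not_even_iff_odd]
    exact of_decide_eq_false hv

lemma psi_convex' {Ψ : ℝ → ℝ} {r : ℝ} (hr : 1 ≤ r) (hc : ConvexOn ℝ (Set.Ici 0) Ψ)
    (hm : MonotoneOn Ψ (Set.Ici 0)) :
    ConvexOn ℝ Set.univ (fun x => Ψ (max |x| r - 1)) := by
  refine ⟨convex_univ, ?_⟩
  intro x _ y _ a b ha hb hab
  have hx : (0 : ℝ) ≤ max |x| r - 1 := by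
    have := le_max_right |x| r
    linarith
  have hy : (0 : ℝ) ≤ max |y| r - 1 := by
    have := le_max_right |y| r
    linarith
  have hz : (0 : ℝ) ≤ max |a * x + b * y| r - 1 := by
    have := le_max_right |a * x + b * y| r
    linarith
  have h1 : max |a * x + b * y| r - 1 ≤ a * (max |x| r - 1) + b * (max |y| r - 1) := by
    have e : a * (max |x| r - 1) + b * (max |y| r - 1) = a * max |x| r + b * max |y| r - 1 := by
      linear_combination (-1 : ℝ) * hab
    rw [e, sub_le_sub_iff_right]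
    refine max_le ?_ ?_
    · refine (abs_add_le _ _).trans ?_
      rw [abs_mul, abs_mul, abs_of_nonneg ha, abs_of_nonneg hb]
      exact add_le_add (mul_le_mul_of_nonneg_left (le_max_left _ _) ha)
        (mul_le_mul_of_nonneg_left (le_max_left _ _) hb)
    · have q1 := mul_le_mul_of_nonneg_left (le_max_right |x| r) ha
      have q2 := mul_le_mul_of_nonneg_left (le_max_right |y| r) hb
      have q3 : a * r + b * r = r := by rw [← add_mul, hab, one_mul]
      linarith
  have h2 := hm (Set.mem_Ici.mpr hz) (Set.mem_Ici.mpr (hz.trans h1)) h1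
  have h3 := hc.2 (Set.mem_Ici.mpr hx) (Set.mem_Ici.mpr hy) ha hb hab
  simp only [smul_eq_mul] at h3 ⊢
  exact h2.trans h3

lemma two_sum {T s : V n → Bool} (hA : Alt T) (hs : Pot χ s) {r : ℕ} (hr : 1 ≤ r)
    (hb : ∀ v, 2 * m χ v + 2 ≤ max (FF χ T v (anti v)) r + max (FF χ (nT T) v (anti v)) r)
    (Ψ : ℝ → ℝ) (hc : ConvexOn ℝ (Set.Ici 0) Ψ) (hm : MonotoneOn Ψ (Set.Ici 0)) :
    ∑ v : V n, Ψ (m χ v) ≤ ∑ v : V n, Ψ (max |(n : ℝ) - 2 * wt v| r - 1) := by
  have hr' : (1 : ℝ) ≤ r := by exact_mod_cast hr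
  have f1 := facet' n (FF χ T) (FF_quad hA hs) (fun v => FF_self v)
    (fun x => Ψ (max |x| r - 1)) (psi_convex' hr' hc hm) (fun x => by simp only [abs_neg])
  have f2 := facet' n (FF χ (nT T)) (FF_quad (alt_nT hA) hs) (fun v => FF_self v)
    (fun x => Ψ (max |x| r - 1)) (psi_convex' hr' hc hm) (fun x => by simp only [abs_neg])
  have h1 : ∑ v : V n, Ψ (m χ v) ≤ ∑ v : V n,
      (1 / 2 * Ψ (max |((FF χ T v (anti v) : ℕ) : ℝ)| r - 1)
        + 1 / 2 * Ψ (max |((FF χ (nT T) v (anti v) : ℕ) : ℝ)| r - 1)) := by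
    refine Finset.sum_le_sum fun v _ => ?_
    rw [abs_of_nonneg (Nat.cast_nonneg _), abs_of_nonneg (Nat.cast_nonneg _)]
    have h := hb v
    have h' : (2 : ℝ) * (m χ v : ℕ) + 2 ≤ max ((FF χ T v (anti v) : ℕ) : ℝ) r
        + max ((FF χ (nT T) v (anti v) : ℕ) : ℝ) r := by
      exact_mod_cast h
    have x0 : (0 : ℝ) ≤ max ((FF χ T v (anti v) : ℕ) : ℝ) r - 1 := by
      have := le_max_right ((FF χ T v (anti v) : ℕ) : ℝ) r
      linarith
    have y0 : (0 : ℝ) ≤ max ((FF χ (nT T) v (anti v) : ℕ) : ℝ) r - 1 := by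
      have := le_max_right ((FF χ (nT T) v (anti v) : ℕ) : ℝ) r
      linarith
    generalize max ((FF χ T v (anti v) : ℕ) : ℝ) r = X at *
    generalize max ((FF χ (nT T) v (anti v) : ℕ) : ℝ) r = Y at *
    have h3 := hc.2 (Set.mem_Ici.mpr x0) (Set.mem_Ici.mpr y0) (by norm_num : (0 : ℝ) ≤ 1 / 2)
      (by norm_num : (0 : ℝ) ≤ 1 / 2) (by norm_num)
    simp only [smul_eq_mul] at h3
    refine le_trans ?_ h3
    refine hm (Set.mem_Ici.mpr (Nat.cast_nonneg _)) (Set.mem_Ici.mpr ?_) ?_ <;> linarith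
  refine h1.trans ?_
  rw [Finset.sum_add_distrib, ← Finset.mul_sum, ← Finset.mul_sum]
  linarith

/-- Sums of convex nondecreasing functions, dimension even. -/
theorem sum_even (hE : EvenCol χ) (hU : Untangled χ) (hn : n % 2 = 0) (Ψ : ℝ → ℝ)
    (hc : ConvexOn ℝ (Set.Ici 0) Ψ) (hm : MonotoneOn Ψ (Set.Ici 0)) :
    ∑ v : V n, Ψ (m χ v) ≤ ∑ v : V n, Ψ (max |(n : ℝ) - 2 * wt v| 2 - 1) := by
  obtain ⟨s, hs⟩ := pot_of hE
  have := two_sum (T := ev n) alt_ev hs (r := 2) (by norm_num)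
    (fun v => m_even alt_ev hs (unt_of hU) hn v) Ψ hc hm
  exact_mod_cast this

/-- Sums of convex nondecreasing functions, dimension odd. -/
theorem sum_odd (hE : EvenCol χ) (hU : Untangled χ) (hn : n % 2 = 1) (Ψ : ℝ → ℝ)
    (hc : ConvexOn ℝ (Set.Ici 0) Ψ) (hm : MonotoneOn Ψ (Set.Ici 0)) :
    ∑ v : V n, Ψ (m χ v) ≤ ∑ v : V n, Ψ (max |(n : ℝ) - 2 * wt v| 1 - 1) := by
  obtain ⟨s, hs⟩ := pot_of hE
  have := two_sum (T := ev n) alt_ev hs (r := 1) (by norm_num)
    (fun v => (m_odd alt_ev hs (unt_of hU) hn v).trans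
      (add_le_add (le_max_left _ _) (le_max_left _ _))) Ψ hc hm
  exact_mod_cast this

lemma sum_two (h : ℕ) : ∑ v : V (2 * h), (max |((2 * h : ℕ) : ℝ) - 2 * wt v| 2 - 1)
    = (2 * h + 2) * (Nat.centralBinom h : ℝ) - 4 ^ h := by
  have h0 : ∑ v : V (2 * h), (max |((2 * h : ℕ) : ℤ) - 2 * wt v| 2 - 1)
      = (2 * h + 2) * (Nat.centralBinom h : ℤ) - 4 ^ h := by
    have h1 : ∀ v : V (2 * h), (max |((2 * h : ℕ) : ℤ) - 2 * wt v| 2 - 1)
        = |((2 * h : ℕ) : ℤ) - 2 * wt v| + 2 * (if wt v = h then (1 : ℤ) else 0) - 1 := by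
      intro v
      rcases lt_trichotomy (wt v) h with g | g | g
      · rw [if_neg (by omega), abs_of_nonneg (by omega)]
        omega
      · rw [if_pos g, g]
        simp
      · rw [if_neg (by omega), abs_of_nonpos (by omega)]
        omega
    rw [Finset.sum_congr rfl (fun v _ => h1 v), Finset.sum_sub_distrib, Finset.sum_add_distrib,
      ← Finset.mul_sum, sum_ite_half, ← Nat.centralBinom_eq_two_mul_choose]
    have h2 := aSum_even h
    unfold aSum at h2
    rw [h2]
    simp only [Finset.sum_const, Finset.card_univ, Fintype.card_pi, Fintype.card_bool,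
      Finset.prod_const, Fintype.card_fin, nsmul_eq_mul]
    push_cast
    rw [pow_mul]
    norm_num
    ring
  exact_mod_cast h0

lemma A_le_even {h : ℕ} {χ : Sym2 (V (2 * h)) → Bool} (hE : EvenCol χ) (hU : Untangled χ) :
    A χ ≤ (2 * h + 2) * (Nat.centralBinom h : ℝ) / 4 ^ h - 1 := by
  have h1 := sum_even hE hU (by omega) (fun x => x) (convexOn_id (convex_Ici 0))
    (fun _ _ _ _ h => h)
  rw [sum_two h] at h1
  unfold A
  rw [pow_mul]
  have h4 : (0 : ℝ) < 4 ^ h := by positivity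
  have h5 : ((2 : ℝ) ^ 2) ^ h = 4 ^ h := by norm_num
  rw [h5, div_sub_one h4.ne']
  exact div_le_div_of_nonneg_right h1 h4.le

lemma A_le_odd {h : ℕ} {χ : Sym2 (V (2 * h + 1)) → Bool} (hE : EvenCol χ) (hU : Untangled χ) :
    A χ ≤ (2 * h + 1) * (Nat.centralBinom h : ℝ) / 4 ^ h - 1 := by
  have h1 := sum_odd hE hU (by omega) (fun x => x) (convexOn_id (convex_Ici 0))
    (fun _ _ _ _ h => h)
  have h2 := sum_lvl (2 * h + 1)
  have e : (2 * h + 1) / 2 = h := by omega
  rw [e] at h2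
  rw [← h2]
  unfold A
  refine div_le_div_of_nonneg_right (h1.trans (le_of_eq ?_)) (by positivity)
  refine Finset.sum_congr rfl fun v _ => ?_
  rw [lvl_real]

end Pool.Agent.Hhelper43.Cube.C14E
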